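import Pool.Agent.PBL.O.Defs

/-!
# PBK BIDEC: bihomogeneous components

Proof of `bidec`. Let `F = ∑ F_(i, j)` be the decomposition in weighted homogeneous components for the
weights `bw` (Mathlib: `MvPolynomial.weightedHomogeneousComponent`, finitely many are nonzero,
`MvPolynomial.sum_weightedHomogeneousComponent` with a `finsum`; or write `F` as the sum of its
monomials). For fixed `(z, y)`: `0 = F (s z, t y) = ∑_(i, j) s ^ i * t ^ j * F_(i, j) (z, y)`
(`eval_smul_bihom`) for all `s, t ≠ 0`. A polynomial in `s` vanishing for all `s ≠ 0` is zero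
(`E` infinite; multiply by `s`, or finitely many roots), so for every `i` and `t ≠ 0`
`∑_j t ^ j * F_(i, j) (z, y) = 0`, and again `F_(i, j) (z, y) = 0`.
Proof of `bidec_all`: `F` is the sum of its components, and these vanish.
-/

set_option autoImplicit false

open MvPolynomial

namespace Pool.Agent.PBL.O

variable {E : Type*} [Field E] [Infinite E] {α β : Type} [Finite α] [Finite β]

omit [Infinite E] [Finite α] [Finite β] in
private theorem bidec_mono (s t : E) (z : α → E) (y : β → E) (d : α ⊕ β →₀ ℕ) :
    ∏ i ∈ d.support, (pt (s • z) (t • y)) i ^ d i =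
      s ^ (Finsupp.weight (bw α β) d).1 * t ^ (Finsupp.weight (bw α β) d).2 *
        ∏ i ∈ d.support, (pt z y) i ^ d i := by
  rw [Finsupp.weight_apply, Finsupp.sum]
  have h2 : ∀ i, (pt (s • z) (t • y)) i ^ d i =
      s ^ (d i • bw α β i).1 * t ^ (d i • bw α β i).2 * (pt z y) i ^ d i := by
    rintro (i | i)
    · simp [pt, bw, mul_pow]
    · simp [pt, bw, mul_pow]
  rw [Finset.prod_congr rfl fun i _ => h2 i, Finset.prod_mul_distrib, Finset.prod_mul_distrib,
    Finset.prod_pow_eq_pow_sum, Finset.prod_pow_eq_pow_sum, ← Prod.fst_sum, ← Prod.snd_sum]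

private theorem bidec_one {ι : Type*} (S : Finset ι) (f : ι → E) (g : ι → ℕ)
    (h : ∀ s : E, s ≠ 0 → ∑ d ∈ S, f d * s ^ g d = 0) (a : ℕ) :
    ∑ d ∈ S.filter (fun d => g d = a), f d = 0 := by
  classical
  set p : Polynomial E := ∑ d ∈ S, Polynomial.C (f d) * Polynomial.X ^ g d with hp
  have hp0 : p = 0 := by
    apply Polynomial.eq_zero_of_infinite_isRoot
    refine (Set.Infinite.mono ?_ ((Set.finite_singleton (0 : E)).infinite_compl))
    intro s hs
    rw [Set.mem_ofPred_eq, Polynomial.IsRoot.def, hp, Polynomial.eval_finsetSum]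
    simpa using h s hs
  have h1 := congrArg (fun q : Polynomial E => q.coeff a) hp0
  simp only [hp, Polynomial.finsetSum_coeff, Polynomial.coeff_C_mul, Polynomial.coeff_X_pow,
    Polynomial.coeff_zero, mul_ite, mul_one, mul_zero] at h1
  rw [Finset.sum_filter]
  refine Eq.trans ?_ h1
  exact Finset.sum_congr rfl fun d _ => by simp only [eq_comm]

omit [Infinite E] [Finite α] [Finite β] in
private theorem bidec_comp (F : MvPolynomial (α ⊕ β) E) (z : α → E) (y : β → E) (n : ℕ × ℕ) :
    eval (pt z y) (weightedHomogeneousComponent (bw α β) n F) =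
      ∑ d ∈ F.support.filter (fun d => Finsupp.weight (bw α β) d = n),
        coeff d F * ∏ i ∈ d.support, (pt z y) i ^ d i := by
  classical
  rw [weightedHomogeneousComponent_apply, map_sum]
  refine Finset.sum_congr rfl fun d _ => ?_
  rw [eval_monomial]
  rfl

theorem bidec (F : MvPolynomial (α ⊕ β) E) (z : α → E) (y : β → E)
    (h : ∀ s t : E, s ≠ 0 → t ≠ 0 → eval (pt (s • z) (t • y)) F = 0) (a b : ℕ) :
    eval (pt z y) (weightedHomogeneousComponent (bw α β) (a, b) F) = 0 := by
  classical
  rw [bidec_comp]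
  have h1 : ∀ t : E, t ≠ 0 →
      ∑ d ∈ F.support.filter (fun d => (Finsupp.weight (bw α β) d).1 = a),
        (coeff d F * ∏ i ∈ d.support, (pt z y) i ^ d i) *
          t ^ (Finsupp.weight (bw α β) d).2 = 0 := by
    intro t ht
    refine bidec_one F.support _ (fun d => (Finsupp.weight (bw α β) d).1) (fun s hs => ?_) a
    rw [← h s t hs ht, eval_eq]
    refine Finset.sum_congr rfl fun d _ => ?_
    rw [bidec_mono]
    ring
  have h2 := bidec_one _ _ _ h1 b
  rw [Finset.filter_filter] at h2
  rw [← h2]
  refine Finset.sum_congr ?_ fun _ _ => rfl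
  refine Finset.filter_congr fun d _ => ?_
  rw [Prod.ext_iff]

/-- If all the bihomogeneous components of `F` vanish at a point then `F` does. -/
theorem bidec_all (F : MvPolynomial (α ⊕ β) E) (z : α → E) (y : β → E)
    (h : ∀ a b : ℕ, eval (pt z y) (weightedHomogeneousComponent (bw α β) (a, b) F) = 0) :
    eval (pt z y) F = 0 := by
  classical
  rw [eval_eq, ← Finset.sum_fiberwise_of_maps_to (s := F.support)
    (t := F.support.image fun d => Finsupp.weight (bw α β) d)
    (g := fun d => Finsupp.weight (bw α β) d) (fun d hd => Finset.mem_image_of_mem _ hd)]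
  refine Finset.sum_eq_zero fun n _ => ?_
  have h1 := h n.1 n.2
  rw [bidec_comp] at h1
  exact h1

/-- The components are bihomogeneous. -/
theorem isBihom_component (F : MvPolynomial (α ⊕ β) E) (a b : ℕ) :
    IsBihom (weightedHomogeneousComponent (bw α β) (a, b) F) a b :=
  weightedHomogeneousComponent_isWeightedHomogeneous _ _

end Pool.Agent.PBL.O
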