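import Pool.Agent.PBL.O.Rat

/-!
# PBK HTYP: types

* `hasTyp_smul`: `HasTyp` is invariant under scaling. Given `Y`, `w` for `(z, y)` take
  `Y' i = b i • Y i` with `b 0 = t`, `b (i + 1) = (b i) ^ S.e` (`Gv_smul`), all nonzero, and
  `w' i = c i • w i` with `c 0 = s`, `c (i + 1) = (c i) ^ S.q * (b i) ^ S.m` (`Pv_smul`,
  `comb_smul_left`), all nonzero; a basis times a nonzero scalar is a basis; `isBas_smul`.
* `exists_hasTyp`: the construction of a chain from fibre maps along the orbit `x i` of `y`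
  (`x i = S.gv^[i] y`), bases `v i` of `S.fib (x i)`, charts `k i`, `l i` with `S.Gv (l i) (x i) ≠ 0` and forms
  `p i` with `S.Pv (k i) (comb (v i) u) (x i) = comb (v (i + 1)) (c i • p i u)`, `c i ≠ 0`: put
  `Y 0 = x 0`, `Y (i + 1) = S.Gv (l i) (Y i)`, so `Y i = b i • x i` with `b i ≠ 0` (`Gv_smul`, `Gv_eq`), and
  `w i = s i • v i`, `s 0 = 1`, `s (i + 1) = (s i) ^ q * (b i) ^ m * c i`. Then
  `comb (w 0) a = comb (v 0) a`.
-/

set_option autoImplicit false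

open MvPolynomial

namespace Pool.Agent.PBL.O

variable {E : Type*} [Field E] {M N s nP nG : ℕ} {S : Sys E M N s nP nG}

/-- A basis times a scalar. -/
private theorem ht_bas {y : Fin N → E} {w : Fin S.R → Fin M → E} (hw : S.IsBas y w) {c : E}
    (hc : c ≠ 0) : S.IsBas y (fun i => c • w i) := by
  refine ⟨?_, ?_⟩
  · have h := hw.1.units_smul (fun _ => Units.mk0 c hc)
    exact h
  · rw [← hw.2]
    apply le_antisymm
    · rw [Submodule.span_le]
      rintro _ ⟨j, rfl⟩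
      exact Submodule.smul_mem _ _ (Submodule.subset_span (Set.mem_range_self j))
    · rw [Submodule.span_le]
      rintro _ ⟨j, rfl⟩
      have h : w j = c⁻¹ • (c • w j) := by
        rw [smul_smul, inv_mul_cancel₀ hc, one_smul]
      rw [h]
      exact Submodule.smul_mem _ _
        (Submodule.subset_span (Set.mem_range_self (f := fun i => c • w i) j))

/-- The scalars of the orbit. -/
private def htB (e : ℕ) (b₀ : E) (D : ℕ → E) : ℕ → E
  | 0 => b₀
  | n + 1 => htB e b₀ D n ^ e * D n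

/-- The scalars of the bases. -/
private def htC (q m : ℕ) (c₀ : E) (B C : ℕ → E) : ℕ → E
  | 0 => c₀
  | n + 1 => htC q m c₀ B C n ^ q * B n ^ m * C n

private theorem htB_ne (e : ℕ) {b₀ : E} (hb : b₀ ≠ 0) {D : ℕ → E} (hD : ∀ n, D n ≠ 0) (n : ℕ) :
    htB e b₀ D n ≠ 0 := by
  induction n with
  | zero => exact hb
  | succ n ih => exact mul_ne_zero (pow_ne_zero _ ih) (hD n)

private theorem htC_ne (q m : ℕ) {c₀ : E} (hc : c₀ ≠ 0) {B C : ℕ → E} (hB : ∀ n, B n ≠ 0)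
    (hC : ∀ n, C n ≠ 0) (n : ℕ) : htC q m c₀ B C n ≠ 0 := by
  induction n with
  | zero => exact hc
  | succ n ih => exact mul_ne_zero (mul_ne_zero (pow_ne_zero _ ih) (pow_ne_zero _ (hB n))) (hC n)

theorem hasTyp_smul (hS : S.Good) {m : ℕ} {τ : Typ E S.R m nP nG} {z : Fin M → E}
    {y : Fin N → E} (h : S.HasTyp τ z y) {c t : E} (hc : c ≠ 0) (ht : t ≠ 0) :
    S.HasTyp τ (c • z) (t • y) := by
  obtain ⟨Y, w, h0, hY, hYs, hw, hP, ha⟩ := h
  have hb := htB_ne (E := E) S.e ht (D := fun _ => 1) (fun _ => one_ne_zero)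
  have hs := htC_ne (E := E) S.q S.m hc (B := htB S.e t (fun _ => 1)) (C := fun _ => 1) hb
    (fun _ => one_ne_zero)
  refine ⟨fun i => htB S.e t (fun _ => 1) i • Y i,
    fun i j => htC S.q S.m c (htB S.e t (fun _ => 1)) (fun _ => 1) i • w i j, ?_,
    fun i => hS.W_smul _ (hY i) _ (hb _), fun i => ?_,
    fun i => (isBas_smul hS (hb _)).2 (ht_bas (hw i) (hs _)), fun i u => ?_, ?_⟩
  · change t • Y 0 = t • y
    rw [h0]
  · change (htB S.e t (fun _ => 1) (i : ℕ) ^ S.e * 1) • Y i.succ =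
      S.Gv (τ.t i) (htB S.e t (fun _ => 1) (i : ℕ) • Y i.castSucc)
    rw [Gv_smul hS, mul_one, hYs i]
  · change S.Pv (τ.k i) (comb (fun j =>
      htC S.q S.m c (htB S.e t (fun _ => 1)) (fun _ => 1) (i : ℕ) • w i.castSucc j) u)
      (htB S.e t (fun _ => 1) (i : ℕ) • Y i.castSucc) =
      comb (fun j => (htC S.q S.m c (htB S.e t (fun _ => 1)) (fun _ => 1) (i : ℕ) ^ S.q *
        htB S.e t (fun _ => 1) (i : ℕ) ^ S.m * 1) • w i.succ j) (fun j => eval u (τ.p i j))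
    rw [comb_smul_left, comb_smul_left, Pv_smul hS, hP i u, mul_one]
  · change comb (fun j => c • w 0 j) τ.a = c • z
    rw [comb_smul_left, ha]

theorem exists_hasTyp (hS : S.Good) {m : ℕ} (τ : Typ E S.R m nP nG) {y : Fin N → E}
    (hy : y ∈ S.Wc) (v : ℕ → Fin S.R → Fin M → E) (hv : ∀ i, S.IsBas (S.gv^[i] y) (v i))
    (hl : ∀ i : Fin m, S.Gv (τ.t i) (S.gv^[(i : ℕ)] y) ≠ 0) (c : Fin m → E)
    (hc : ∀ i, c i ≠ 0)
    (hp : ∀ (i : Fin m) (u : Fin S.R → E),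
      S.Pv (τ.k i) (comb (v i) u) (S.gv^[(i : ℕ)] y) =
        comb (v (i + 1)) (fun j => c i * eval u (τ.p i j))) :
    S.HasTyp τ (comb (v 0) τ.a) y := by
  have hd : ∀ i : Fin m, ∃ d : E, d ≠ 0 ∧
      S.Gv (τ.t i) (S.gv^[(i : ℕ)] y) = d • S.gv (S.gv^[(i : ℕ)] y) := fun i =>
    Gv_eq hS (gv_iter_mem hS hy i) (hl i)
  choose d hd0 hd using hd
  obtain ⟨D, hD0, hD⟩ : ∃ D : ℕ → E, (∀ n, D n ≠ 0) ∧ ∀ i : Fin m, D i = d i := by
    refine ⟨fun n => if h : n < m then d ⟨n, h⟩ else 1, fun n => ?_, fun i => ?_⟩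
    · dsimp only
      split_ifs with h
      · exact hd0 _
      · exact one_ne_zero
    · dsimp only
      rw [dif_pos i.2]
  obtain ⟨C, hC0, hC⟩ : ∃ C : ℕ → E, (∀ n, C n ≠ 0) ∧ ∀ i : Fin m, C i = c i := by
    refine ⟨fun n => if h : n < m then c ⟨n, h⟩ else 1, fun n => ?_, fun i => ?_⟩
    · dsimp only
      split_ifs with h
      · exact hc _
      · exact one_ne_zero
    · dsimp only
      rw [dif_pos i.2]
  have hb := htB_ne (E := E) S.e (one_ne_zero : (1 : E) ≠ 0) hD0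
  have hs := htC_ne (E := E) S.q S.m (one_ne_zero : (1 : E) ≠ 0) hb hC0
  refine ⟨fun i => htB S.e 1 D i • S.gv^[(i : ℕ)] y,
    fun i j => htC S.q S.m 1 (htB S.e 1 D) C i • v i j, ?_,
    fun i => hS.W_smul _ (gv_iter_mem hS hy i) _ (hb _), fun i => ?_,
    fun i => (isBas_smul hS (hb _)).2 (ht_bas (hv i) (hs _)), fun i u => ?_, ?_⟩
  · change (1 : E) • y = y
    rw [one_smul]
  · change (htB S.e 1 D (i : ℕ) ^ S.e * D i) • S.gv^[(i : ℕ) + 1] y =
      S.Gv (τ.t i) (htB S.e 1 D (i : ℕ) • S.gv^[(i : ℕ)] y)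
    rw [Gv_smul hS, hd i, hD i, smul_smul, Function.iterate_succ_apply']
  · change S.Pv (τ.k i) (comb (fun j =>
      htC S.q S.m 1 (htB S.e 1 D) C (i : ℕ) • v (i : ℕ) j) u)
      (htB S.e 1 D (i : ℕ) • S.gv^[(i : ℕ)] y) =
      comb (fun j => (htC S.q S.m 1 (htB S.e 1 D) C (i : ℕ) ^ S.q *
        htB S.e 1 D (i : ℕ) ^ S.m * C i) • v ((i : ℕ) + 1) j) (fun j => eval u (τ.p i j))
    have h1 : comb (v ((i : ℕ) + 1)) (fun j => c i * eval u (τ.p i j)) =
        c i • comb (v ((i : ℕ) + 1)) (fun j => eval u (τ.p i j)) :=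
      comb_smul (v ((i : ℕ) + 1)) (c i) (fun j => eval u (τ.p i j))
    rw [comb_smul_left, comb_smul_left, Pv_smul hS, hp i u, hC i, h1, smul_smul]
  · change comb (fun j => (1 : E) • v 0 j) τ.a = comb (v 0) τ.a
    rw [comb_smul_left, one_smul]

end Pool.Agent.PBL.O
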