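import Pool.Agent.PBL.O.Gdefs
import Pool.Agent.PBL.O.Bidec
import Pool.Agent.PBL.O.Htyp

/-!
# PBK VPRIME: the bundle is irreducible; the dense type

* `IW_prime`: `S.IW` is a homogeneous ideal (`S.Wc` is stable under scaling and `E` is infinite: if `F`
  vanishes on `S.Wc` then so do its homogeneous components, as `∑ t ^ i F_i (y) = 0` for all
  `t ≠ 0`), so by `Ideal.IsHomogeneous.isPrime_of_homogeneous_mem_or_mem` (see `coneI_prime` in
  `Pool/Agent/KSF/Defs.lean`) it is enough to check homogeneous elements: `W_prime`. `1 ∉ S.IW` by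
  `W_nonempty`.
* `vprime`: for `F` in `MvPolynomial (Fin M ⊕ Fin N) E` let `φ F` be its image in
  `MvPolynomial (Fin s) (RW S)` (a domain) under `X (inl l) ↦ ∑ j, X j * [S.B j l]`, `X (inr l) ↦ [X l]`. It is
  zero if and only if `F` vanishes on the bundle: for `y ∈ S.Wc` and `u : Fin s → E` the evaluation of
  `φ F` at `(u, y)` is `F (∑ u_j * S.col y j, y)`, every `z ∈ S.fib y` is such a combination, and an element of
  `MvPolynomial (Fin s) (RW S)` vanishing at all `(u, y)` is zero (for fixed `y` it vanishes as a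
  polynomial in `u`, so all its coefficients vanish at all `y ∈ S.Wc`, hence are `0` in `RW S`).
* `pick`: suppose that for every `τ ∈ T` there is a bihomogeneous `F τ` vanishing at all
  `(zs n, ys n)` of type `τ` but not on the bundle. The product over the finite set `T` is bihomogeneous,
  vanishes at all the `(zs n, ys n)`, so it vanishes on the bundle by `hd`, and by `vprime` (induction on
  the finite set) some factor vanishes on the bundle, a contradiction.
* `dens`: let `F` vanish at all points of type `τ`. For a point `(zs n, ys n)` of type `τ` (up to scaling)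
  all `(s z, t y)` have the type `τ` (`hasTyp_smul`), so by `bidec` all the bihomogeneous components of `F`
  vanish at `(zs n, ys n)`, so by `h` they vanish on the bundle, and `F` too (`bidec_all`).
-/

set_option autoImplicit false

open MvPolynomial

namespace Pool.Agent.PBL.O

variable {E : Type*} [Field E] [Infinite E] {M N s nP nG : ℕ} {S : Sys E M N s nP nG}

attribute [local instance] MvPolynomial.gradedAlgebra

private theorem vp_component (hS : S.Good) {F : MvPolynomial (Fin N) E} (hF : F ∈ S.IW) (i : ℕ) :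
    homogeneousComponent i F ∈ S.IW := by
  intro y hy
  by_cases hi : i ∈ Finset.range (F.totalDegree + 1)
  · obtain ⟨P, hP⟩ : ∃ P : Polynomial E, P = ∑ j ∈ Finset.range (F.totalDegree + 1),
        Polynomial.C (eval y (homogeneousComponent j F)) * Polynomial.X ^ j := ⟨_, rfl⟩
    have h1 : ∀ t : E, t ≠ 0 → P.IsRoot t := by
      intro t ht
      have h2 : eval (t • y) F = 0 := hF _ (hS.W_smul y hy t ht)
      rw [Polynomial.IsRoot, hP, Polynomial.eval_finsetSum]
      rw [← sum_homogeneousComponent F, map_sum] at h2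
      rw [← h2]
      refine Finset.sum_congr rfl fun j _ => ?_
      rw [Pool.Agent.KSF.eval_smul_form (homogeneousComponent_isHomogeneous j F),
        Polynomial.eval_mul, Polynomial.eval_C, Polynomial.eval_pow, Polynomial.eval_X, mul_comm]
    have h3 : P = 0 := by
      apply Polynomial.eq_zero_of_infinite_isRoot
      refine Set.Infinite.mono (s := {t : E | t ≠ 0}) (fun t ht => h1 t ht) ?_
      have h4 : ({t : E | t ≠ 0} : Set E) = ({0} : Set E)ᶜ := by
        ext t; simp
      rw [h4]
      exact (Set.finite_singleton (0 : E)).infinite_compl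
    have h5 : P.coeff i = eval y (homogeneousComponent i F) := by
      rw [hP, Polynomial.finsetSum_coeff]
      simp only [Polynomial.coeff_C_mul_X_pow]
      rw [Finset.sum_ite_eq]
      rw [if_pos hi]
    rw [← h5, h3, Polynomial.coeff_zero]
  · rw [homogeneousComponent_eq_zero, map_zero]
    rw [Finset.mem_range] at hi
    lia

theorem IW_prime (hS : S.Good) : S.IW.IsPrime := by
  have hhom : S.IW.IsHomogeneous (homogeneousSubmodule (Fin N) E) := by
    intro i F hF
    have h2 : ((DirectSum.decompose (homogeneousSubmodule (Fin N) E) F i :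
        homogeneousSubmodule (Fin N) E i) : MvPolynomial (Fin N) E) = homogeneousComponent i F :=
      decomposition.decompose'_apply F i
    rw [h2]
    exact vp_component hS hF i
  refine Ideal.IsHomogeneous.isPrime_of_homogeneous_mem_or_mem hhom ?_ ?_
  · intro h
    have h1 : (1 : MvPolynomial (Fin N) E) ∈ S.IW := h ▸ trivial
    obtain ⟨y, hy⟩ := hS.W_nonempty
    have := h1 y hy
    simp at this
  · rintro P Q ⟨i, hi⟩ ⟨j, hj⟩ hPQ
    exact hS.W_prime P Q i j ((mem_homogeneousSubmodule i P).1 hi)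
      ((mem_homogeneousSubmodule j Q).1 hj) hPQ

/-- `F` vanishes on the bundle. -/
def VanV (S : Sys E M N s nP nG) (F : MvPolynomial (Fin M ⊕ Fin N) E) : Prop :=
  ∀ y ∈ S.Wc, ∀ z ∈ S.fib y, eval (pt z y) F = 0

/-- The substitution of the generic point of the bundle. -/
private noncomputable def vpPhi (S : Sys E M N s nP nG) :
    MvPolynomial (Fin M ⊕ Fin N) E →+* MvPolynomial (Fin s) (RW S) :=
  eval₂Hom ((C : RW S →+* MvPolynomial (Fin s) (RW S)).comp
      ((Ideal.Quotient.mk S.IW).comp (C : E →+* MvPolynomial (Fin N) E)))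
    (Sum.elim (fun l => ∑ j, X j * C (Ideal.Quotient.mk S.IW (S.B j l)))
      (fun l => C (Ideal.Quotient.mk S.IW (X l))))

private theorem vp_ev (y : Fin N → E) (hy : y ∈ S.Wc) (u : Fin s → E)
    (F : MvPolynomial (Fin M ⊕ Fin N) E) :
    eval₂Hom (evRW S y hy) u (vpPhi S F) = eval (pt (comb (S.col y) u) y) F := by
  have h : (eval₂Hom (evRW S y hy) u).comp (vpPhi S) =
      (eval (pt (comb (S.col y) u) y) : MvPolynomial (Fin M ⊕ Fin N) E →+* E) := by
    apply MvPolynomial.ringHom_ext
    · intro r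
      simp [vpPhi, evRW]
    · rintro (l | l)
      · simp [vpPhi, evRW, pt, comb, Sys.col]
      · simp [vpPhi, evRW, pt]
  exact DFunLike.congr_fun h F

private theorem vp_iff (F : MvPolynomial (Fin M ⊕ Fin N) E) :
    VanV S F ↔ vpPhi S F = 0 := by
  constructor
  · intro h
    ext d
    rw [coeff_zero]
    obtain ⟨Q, hQ⟩ := Ideal.Quotient.mk_surjective (coeff d (vpPhi S F))
    rw [← hQ, Ideal.Quotient.eq_zero_iff_mem]
    intro y hy
    have h1 : MvPolynomial.map (evRW S y hy) (vpPhi S F) = 0 := by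
      apply MvPolynomial.funext
      intro u
      rw [map_zero, eval_map]
      have h2 := vp_ev y hy u F
      rw [coe_eval₂Hom] at h2
      rw [h2]
      exact h y hy _ (comb_mem _ _)
    have h3 : evRW S y hy (coeff d (vpPhi S F)) = 0 := by
      rw [← coeff_map, h1, coeff_zero]
    rw [← hQ] at h3
    simpa [evRW] using h3
  · intro h y hy z hz
    obtain ⟨u, rfl⟩ := exists_comb hz
    rw [← vp_ev y hy u F, h, map_zero]

theorem vprime (hS : S.Good) (F F' : MvPolynomial (Fin M ⊕ Fin N) E) (h : VanV S (F * F')) :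
    VanV S F ∨ VanV S F' := by
  have := IW_prime hS
  rw [vp_iff, map_mul, mul_eq_zero] at h
  rw [vp_iff, vp_iff]
  exact h

private theorem vp_prod (hS : S.Good) {T : Type*} (A : Finset T)
    (G : T → MvPolynomial (Fin M ⊕ Fin N) E) (h : VanV S (∏ τ ∈ A, G τ)) :
    ∃ τ ∈ A, VanV S (G τ) := by
  classical
  induction A using Finset.induction_on with
  | empty =>
    exfalso
    obtain ⟨y, hy⟩ := hS.W_nonempty
    have := h y hy 0 (Submodule.zero_mem _)
    simp at this
  | insert a A ha ih =>
    rw [Finset.prod_insert ha] at h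
    rcases vprime hS _ _ h with h1 | h1
    · exact ⟨a, Finset.mem_insert_self _ _, h1⟩
    · obtain ⟨τ, hτ, h2⟩ := ih h1
      exact ⟨τ, Finset.mem_insert_of_mem hτ, h2⟩

theorem pick (hS : S.Good) {m : ℕ} {T : Set (Typ E S.R m nP nG)} (hT : T.Finite)
    (zs : ℕ → Fin M → E) (ys : ℕ → Fin N → E)
    (hd : ∀ (F : MvPolynomial (Fin M ⊕ Fin N) E) (a b : ℕ), IsBihom F a b →
      (∀ n, eval (pt (zs n) (ys n)) F = 0) → VanV S F)
    (h : ∀ n, ∃ τ ∈ T, ∃ c : E, c ≠ 0 ∧ S.HasTyp τ (c • zs n) (ys n)) :
    ∃ τ ∈ T, ∀ (F : MvPolynomial (Fin M ⊕ Fin N) E) (a b : ℕ), IsBihom F a b →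
      (∀ n, (∃ c : E, c ≠ 0 ∧ S.HasTyp τ (c • zs n) (ys n)) → eval (pt (zs n) (ys n)) F = 0) →
      VanV S F := by
  classical
  by_contra hcon
  push Not at hcon
  choose! G a b h1 h2 h3 using hcon
  have h4 : VanV S (∏ τ ∈ hT.toFinset, G τ) := by
    have h5 : IsBihom (∏ τ ∈ hT.toFinset, G τ) (∑ τ ∈ hT.toFinset, (a τ, b τ)).1
        (∑ τ ∈ hT.toFinset, (a τ, b τ)).2 := by
      unfold IsBihom
      exact IsWeightedHomogeneous.prod _ _ _ fun τ hτ => h1 τ (hT.mem_toFinset.1 hτ)
    refine hd _ _ _ h5 fun n => ?_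
    obtain ⟨τ, hτ, hc⟩ := h n
    rw [map_prod]
    exact Finset.prod_eq_zero (hT.mem_toFinset.2 hτ) (h2 τ hτ n hc)
  obtain ⟨τ, hτ, h6⟩ := vp_prod hS _ _ h4
  exact h3 τ (hT.mem_toFinset.1 hτ) h6

theorem dens (hS : S.Good) {m : ℕ} {τ : Typ E S.R m nP nG} (zs : ℕ → Fin M → E)
    (ys : ℕ → Fin N → E)
    (h : ∀ (F : MvPolynomial (Fin M ⊕ Fin N) E) (a b : ℕ), IsBihom F a b →
      (∀ n, (∃ c : E, c ≠ 0 ∧ S.HasTyp τ (c • zs n) (ys n)) → eval (pt (zs n) (ys n)) F = 0) →
      VanV S F) (F : MvPolynomial (Fin M ⊕ Fin N) E)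
    (hF : ∀ z y, S.HasTyp τ z y → eval (pt z y) F = 0) : VanV S F := by
  intro y hy z hz
  apply bidec_all
  intro a b
  refine h _ a b (isBihom_component F a b) ?_ y hy z hz
  rintro n ⟨c, hc, hn⟩
  have h1 : eval (pt (c • zs n) (ys n))
      (weightedHomogeneousComponent (bw (Fin M) (Fin N)) (a, b) F) = 0 := by
    apply bidec
    intro s' t hs ht
    exact hF _ _ (hasTyp_smul hS hn hs ht)
  have h2 := eval_smul_bihom (isBihom_component F a b) c 1 (zs n) (ys n)
  rw [one_smul, h1, one_pow, mul_one] at h2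
  rcases mul_eq_zero.1 h2.symm with h3 | h3
  · exact absurd h3 (pow_ne_zero _ hc)
  · exact h3

end Pool.Agent.PBL.O
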