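import Pool.Agent.PBL.O.Dyd
import Pool.Agent.PBL.O.Vprime

/-!
# PBK DYZ: the next iterate on the bundle

`repZ_succ`: let `P'` of bidegree `(a, b)` represent the first component of the `n`-th iterate, and
let `G` of degree `d` represent `S.gv^[n]`. There are `y0 ∈ S.Wc`, `z0 ∈ S.fib y0`, `z0 ≠ 0` with
`P' (z0, y0) ≠ 0` and `G (y0) ≠ 0`: some `P' i` does not vanish on the bundle, some
`rename inr (G j)` (bidegree `(0, d)`) does not vanish on the bundle (fibres are nonzero, `rank`), so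
by `vprime` the product does not vanish on the bundle: there is a point `(z0, y0)`; if `z0 = 0` take
another vector: if `a ≥ 1` then `P' i` vanishes at `z0 = 0`, and if `a = 0` its value does not depend
on `z` (`eval_smul_bihom` with `s = 0`). Choose `k` with `S.Pv k z (S.gv^[n] y0) ≠ 0` for all nonzero
`z` of the fibre (`P_ne`). The forms `P'' i = bind₁ (Sum.elim P' (fun j => rename Sum.inr (G j))) (S.P k i)`
are bihomogeneous of bidegree `(q * a, q * b + m * d)` (a monomial of bidegree `(q, m)` becomes a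
product of `q` forms of bidegree `(a, b)` and `m` forms of bidegree `(0, d)`; write the form as the sum of
its monomials, `IsWeightedHomogeneous.sum`, `.prod`, `.pow`), and their value at `(z, y)`,
with `P' (z, y) = c • S.zo z y n`, `G (y) = c' • S.gv^[n] y`, is
`(c ^ q * c' ^ m) • S.Pv k (S.zo z y n) (S.gv^[n] y)` (`Pv_smul`), a multiple of `S.zo z y (n + 1)`
(`fv_P`, `zo_mem_ne`, `gv_iter_mem`, `zo_succ`), nonzero at `(z0, y0)`.
-/

set_option autoImplicit false

open MvPolynomial

namespace Pool.Agent.PBL.O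

variable {E : Type*} [Field E] [Infinite E] {M N s nP nG : ℕ} {S : Sys E M N s nP nG}

/-- Forms in the second group of variables are bihomogeneous. -/
private theorem dyz_rename {d : ℕ} {G : MvPolynomial (Fin N) E} (hG : G.IsHomogeneous d) :
    IsBihom (rename Sum.inr G : MvPolynomial (Fin M ⊕ Fin N) E) 0 d := by
  classical
  have h1 : (rename Sum.inr G : MvPolynomial (Fin M ⊕ Fin N) E) =
      ∑ t ∈ G.support, monomial (t.mapDomain Sum.inr) (coeff t G) := by
    conv_lhs => rw [G.as_sum]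
    rw [map_sum]
    exact Finset.sum_congr rfl fun t _ => rename_monomial _ _ _
  rw [h1]
  refine IsWeightedHomogeneous.sum _ _ _ fun t ht => ?_
  apply isWeightedHomogeneous_monomial
  rw [Finsupp.weight_apply, Finsupp.sum_mapDomain_index (by simp) (fun _ _ _ => by rw [add_smul])]
  have h2 := hG (mem_support_iff.1 ht)
  rw [Finsupp.weight_apply] at h2
  simp only [bw, Sum.elim_inr]
  simp only [Finsupp.sum, Pi.one_apply, smul_eq_mul, mul_one] at h2 ⊢
  refine Prod.ext ?_ ?_
  · rw [Prod.fst_sum]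
    simp
  · rw [Prod.snd_sum]
    simpa using h2

/-- Composition of bihomogeneous forms. -/
private theorem dyz_bind {q m a b d : ℕ} {F : MvPolynomial (Fin M ⊕ Fin N) E}
    (hF : IsBihom F q m) (g : Fin M ⊕ Fin N → MvPolynomial (Fin M ⊕ Fin N) E)
    (hl : ∀ i, IsBihom (g (Sum.inl i)) a b) (hr : ∀ i, IsBihom (g (Sum.inr i)) 0 d) :
    IsBihom (bind₁ g F) (q * a) (q * b + m * d) := by
  classical
  have h1 : bind₁ g F = ∑ t ∈ F.support, C (coeff t F) * ∏ i ∈ t.support, g i ^ t i := by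
    change aeval g F = _
    rw [aeval_def, eval₂_eq]
    rfl
  rw [h1]
  refine IsWeightedHomogeneous.sum _ _ _ fun t ht => ?_
  have h2 := hF (mem_support_iff.1 ht)
  rw [Finsupp.weight_apply, Finsupp.sum] at h2
  set L : ℕ × ℕ →+ ℕ × ℕ :=
    { toFun := fun x => (x.1 * a, x.1 * b + x.2 * d)
      map_zero' := by simp
      map_add' := fun x y => by
        refine Prod.ext ?_ ?_
        · simp only [Prod.fst_add]; ring
        · simp only [Prod.fst_add, Prod.snd_add]; ring } with hL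
  have h3 : ∀ i, IsWeightedHomogeneous (bw (Fin M) (Fin N)) (g i) (L (bw (Fin M) (Fin N) i)) := by
    rintro (i | i)
    · have h4 := hl i
      unfold IsBihom at h4
      have h5 : L (bw (Fin M) (Fin N) (Sum.inl i)) = (a, b) := by
        simp [hL, bw]
      rw [h5]
      exact h4
    · have h4 := hr i
      unfold IsBihom at h4
      have h5 : L (bw (Fin M) (Fin N) (Sum.inr i)) = (0, d) := by
        simp [hL, bw]
      rw [h5]
      exact h4
  have h6 : (q * a, q * b + m * d) = 0 + ∑ i ∈ t.support, t i • L (bw (Fin M) (Fin N) i) := by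
    rw [zero_add]
    have h7 : ∑ i ∈ t.support, t i • L (bw (Fin M) (Fin N) i) =
        L (∑ i ∈ t.support, t i • bw (Fin M) (Fin N) i) := by
      rw [map_sum]
      exact Finset.sum_congr rfl fun i _ => (map_nsmul L _ _).symm
    rw [h7, h2]
    rfl
  rw [h6]
  exact (isWeightedHomogeneous_C _ _).mul
    (IsWeightedHomogeneous.prod _ _ _ fun i _ => (h3 i).pow (t i))

private theorem dyz_eval_inr (z : Fin M → E) (y : Fin N → E) (G : MvPolynomial (Fin N) E) :
    eval (pt z y) (rename Sum.inr G : MvPolynomial (Fin M ⊕ Fin N) E) = eval y G := by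
  rw [eval_rename]
  rfl

/-- Every fibre has a nonzero vector. -/
private theorem dyz_fib_ne (hS : S.Good) {y : Fin N → E} (hy : y ∈ S.Wc) :
    ∃ z ∈ S.fib y, z ≠ 0 := by
  have h1 := hS.rank y hy
  have h2 := hS.hR
  have h3 : S.fib y ≠ ⊥ := by
    intro h
    rw [h, finrank_bot] at h1
    omega
  obtain ⟨z, hz, hz0⟩ := Submodule.exists_mem_ne_zero_of_ne_bot h3
  exact ⟨z, hz, hz0⟩

theorem repZ_succ (hS : S.Good) {n a b d : ℕ} (h : RepZ S n a b) (h' : RepG S n d) :
    RepZ S (n + 1) (S.q * a) (S.q * b + S.m * d) := by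
  classical
  obtain ⟨P', hP1, ⟨y1, hy1, z1, hz1, hz1', i1, hi1⟩, hP2⟩ := h
  obtain ⟨G, hG1, ⟨y2, hy2, j2, hj2⟩, hG2⟩ := h'
  -- a common point
  have hcom : ∃ y ∈ S.Wc, ∃ z ∈ S.fib y, z ≠ 0 ∧ eval (pt z y) (P' i1) ≠ 0 ∧
      eval y (G j2) ≠ 0 := by
    have h1 : ¬ VanV S (P' i1 * rename Sum.inr (G j2)) := by
      intro hv
      rcases vprime hS _ _ hv with h2 | h2
      · exact hi1 (h2 y1 hy1 z1 hz1)
      · have h3 := h2 y2 hy2 0 (Submodule.zero_mem _)
        rw [dyz_eval_inr] at h3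
        exact hj2 h3
    unfold VanV at h1
    push Not at h1
    obtain ⟨y, hy, z, hz, hne⟩ := h1
    rw [map_mul, dyz_eval_inr] at hne
    have hn1 := left_ne_zero_of_mul hne
    have hn2 := right_ne_zero_of_mul hne
    by_cases hz0 : z = 0
    · obtain ⟨z', hz', hz0'⟩ := dyz_fib_ne hS hy
      refine ⟨y, hy, z', hz', hz0', ?_, hn2⟩
      have h3 := eval_smul_bihom (hP1 i1) 0 1 z' y
      rw [zero_smul, one_smul, ← hz0] at h3
      rw [h3] at hn1
      exact right_ne_zero_of_mul hn1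
    · exact ⟨y, hy, z, hz, hz0, hn1, hn2⟩
  obtain ⟨y0, hy0, z0, hz0, hz0', hp0, hg0⟩ := hcom
  obtain ⟨k, hk⟩ := hS.P_ne _ (gv_iter_mem hS hy0 n)
  -- values
  have hval : ∀ (y : Fin N → E) (z : Fin M → E) (c c' : E),
      (∀ i, eval (pt z y) (P' i) = c * S.zo z y n i) →
      (∀ i, eval y (G i) = c' * S.gv^[n] y i) → ∀ i,
      eval (pt z y) (bind₁ (Sum.elim P' fun j => rename Sum.inr (G j)) (S.P k i)) =
        (c ^ S.q * c' ^ S.m) * S.Pv k (S.zo z y n) (S.gv^[n] y) i := by
    intro y z c c' hc hc' i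
    have h1 : eval (pt z y) (bind₁ (Sum.elim P' fun j => rename Sum.inr (G j)) (S.P k i)) =
        eval (pt (c • S.zo z y n) (c' • S.gv^[n] y)) (S.P k i) := by
      have h2 := eval₂Hom_bind₁ (RingHom.id E) (pt z y)
        (Sum.elim P' fun j => rename Sum.inr (G j)) (S.P k i)
      have h3 : (fun x => eval₂Hom (RingHom.id E) (pt z y)
          ((Sum.elim P' fun j => rename Sum.inr (G j)) x)) =
          pt (c • S.zo z y n) (c' • S.gv^[n] y) := by
        funext x
        rcases x with x | x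
        · change eval (pt z y) (P' x) = c * S.zo z y n x
          exact hc x
        · change eval (pt z y) (rename Sum.inr (G x)) = c' * S.gv^[n] y x
          rw [dyz_eval_inr]
          exact hc' x
      rw [h3] at h2
      exact h2
    rw [h1]
    have h4 := congrFun (Pv_smul hS c c' (S.zo z y n) (S.gv^[n] y) k) i
    exact h4
  refine ⟨fun i => bind₁ (Sum.elim P' fun j => rename Sum.inr (G j)) (S.P k i), ?_, ?_, ?_⟩
  · intro i
    exact dyz_bind (hS.P_bihom k i) _ (fun j => hP1 j) (fun j => dyz_rename (hG1 j))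
  · obtain ⟨c, hc⟩ := hP2 y0 hy0 z0 hz0 hz0'
    obtain ⟨c', hc'⟩ := hG2 y0 hy0
    have hc0 : c ≠ 0 := by
      intro h0
      apply hp0
      rw [hc, h0, zero_mul]
    have hc0' : c' ≠ 0 := by
      intro h0
      apply hg0
      rw [hc', h0, zero_mul]
    obtain ⟨m1, m2⟩ := zo_mem_ne hS hy0 hz0 hz0' n
    have hne := hk _ m1 m2
    obtain ⟨i, hi⟩ : ∃ i, S.Pv k (S.zo z0 y0 n) (S.gv^[n] y0) i ≠ 0 := by
      by_contra hcon
      push Not at hcon
      exact hne (funext hcon)
    refine ⟨y0, hy0, z0, hz0, hz0', i, ?_⟩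
    rw [hval y0 z0 c c' hc hc' i]
    exact mul_ne_zero (mul_ne_zero (pow_ne_zero _ hc0) (pow_ne_zero _ hc0')) hi
  · intro y hy z hz hzn
    obtain ⟨c, hc⟩ := hP2 y hy z hz hzn
    obtain ⟨c', hc'⟩ := hG2 y hy
    obtain ⟨m1, m2⟩ := zo_mem_ne hS hy hz hzn n
    obtain ⟨t, ht⟩ := hS.fv_P k _ (gv_iter_mem hS hy n) _ m1 m2
    refine ⟨c ^ S.q * c' ^ S.m * t, fun i => ?_⟩
    rw [hval y z c c' hc hc' i, ht, zo_succ, Pi.smul_apply, smul_eq_mul]
    ring

end Pool.Agent.PBL.O
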