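import Pool.Agent.KSF.Hgt
import Pool.Agent.Helper63.WH.Aapi

/-!
# PBK: arithmetic degrees on projective bundles. Definitions.

Everything is done with vectors. `y : Fin N → E` is a vector of homogeneous coordinates of a point of
the base `W`, `z : Fin M → E` a vector of the fibre `F_y` of the bundle, the span of the columns
`S.col y j`. The projective bundle `ℙ(F)` consists of the pairs `([z], [y])`.
-/

set_option autoImplicit false

open MvPolynomial Filter Topology

namespace Pool.Agent.PBL.O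

open Pool.Agent.Helper63.WH

/-! ### Bihomogeneous polynomials -/

section Bihom

variable {E : Type*} [Field E] {α β : Type*}

/-- The weight `(1, 0)` for the variables of the first group, `(0, 1)` for the second group. -/
def bw (α β : Type*) : α ⊕ β → ℕ × ℕ := Sum.elim (fun _ => (1, 0)) (fun _ => (0, 1))

/-- `F` is bihomogeneous of bidegree `(a, b)`. -/
def IsBihom (F : MvPolynomial (α ⊕ β) E) (a b : ℕ) : Prop :=
  IsWeightedHomogeneous (bw α β) F (a, b)

/-- The values of the two groups of variables. -/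
def pt (z : α → E) (y : β → E) : α ⊕ β → E := Sum.elim z y

theorem eval_smul_bihom {F : MvPolynomial (α ⊕ β) E} {a b : ℕ} (hF : IsBihom F a b)
    (s t : E) (z : α → E) (y : β → E) :
    eval (pt (s • z) (t • y)) F = s ^ a * t ^ b * eval (pt z y) F := by
  classical
  rw [eval_eq, eval_eq, Finset.mul_sum]
  refine Finset.sum_congr rfl fun d hd => ?_
  have h0 := hF (mem_support_iff.1 hd)
  rw [Finsupp.weight_apply, Finsupp.sum] at h0
  have h1 : ∏ i ∈ d.support, (pt (s • z) (t • y)) i ^ d i =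
      s ^ a * t ^ b * ∏ i ∈ d.support, (pt z y) i ^ d i := by
    have h2 : ∀ i, (pt (s • z) (t • y)) i ^ d i =
        s ^ (d i • bw α β i).1 * t ^ (d i • bw α β i).2 * (pt z y) i ^ d i := by
      rintro (i | i)
      · simp [pt, bw, mul_pow]
      · simp [pt, bw, mul_pow]
    rw [Finset.prod_congr rfl fun i _ => h2 i, Finset.prod_mul_distrib, Finset.prod_mul_distrib,
      Finset.prod_pow_eq_pow_sum, Finset.prod_pow_eq_pow_sum, ← Prod.fst_sum, ← Prod.snd_sum, h0]
  rw [h1]
  ring

end Bihom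

/-! ### Linear algebra -/

section Lin

variable {E : Type*} [CommRing E]

/-- The linear combination of the vectors `w i` with the coefficients `u i`. -/
def comb {ι μ : Type*} [Fintype ι] (w : ι → μ → E) (u : ι → E) : μ → E :=
  fun l => ∑ i, u i * w i l

/-- The Plücker coordinates, indexed by all functions `J`. -/
def plk {R M : ℕ} (w : Fin R → Fin M → E) (J : Fin R → Fin M) : E :=
  Matrix.det (Matrix.of fun i j => w i (J j))

/-- The vector of all the coordinates of all the `w i`. -/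
def cc {R M : ℕ} (w : Fin R → Fin M → E) : Fin R × Fin M → E := fun x => w x.1 x.2

/-- The homogeneous map `p` has no nontrivial zero. -/
def NoZero {R : ℕ} {ι : Type*} (p : ι → MvPolynomial (Fin R) E) : Prop :=
  ∀ u : Fin R → E, u ≠ 0 → ∃ i, eval u (p i) ≠ 0

/-- The vector of the coefficients of the forms `p j` of degree `q`. -/
noncomputable def cv {R : ℕ} (q : ℕ) (p : Fin R → MvPolynomial (Fin R) E) :
    Fin R × (Fin R → Fin (q + 1)) → E :=
  fun x => (p x.1).coeff (Finsupp.equivFunOnFinite.symm fun i => (x.2 i : ℕ))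

theorem comb_eq_sum {ι μ : Type*} [Fintype ι] (w : ι → μ → E) (u : ι → E) :
    comb w u = ∑ i, u i • w i := by
  funext l
  simp [comb, Finset.sum_apply]

theorem comb_mem {ι μ : Type*} [Fintype ι] (w : ι → μ → E) (u : ι → E) :
    comb w u ∈ Submodule.span E (Set.range w) := by
  rw [comb_eq_sum]
  exact Submodule.sum_mem _ fun i _ =>
    Submodule.smul_mem _ _ (Submodule.subset_span (Set.mem_range_self i))

theorem exists_comb {ι μ : Type*} [Fintype ι] {w : ι → μ → E} {z : μ → E}
    (h : z ∈ Submodule.span E (Set.range w)) : ∃ u, comb w u = z := by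
  obtain ⟨u, hu⟩ := (Submodule.mem_span_range_iff_exists_fun E).1 h
  exact ⟨u, by rw [comb_eq_sum, hu]⟩

theorem comb_smul {ι μ : Type*} [Fintype ι] (w : ι → μ → E) (t : E) (u : ι → E) :
    comb w (t • u) = t • comb w u := by
  funext l
  simp [comb, Finset.mul_sum, mul_assoc]

theorem comb_smul_left {ι μ : Type*} [Fintype ι] (w : ι → μ → E) (t : E) (u : ι → E) :
    comb (fun i => t • w i) u = t • comb w u := by
  funext l
  simp only [comb, Pi.smul_apply, smul_eq_mul, Finset.mul_sum]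
  exact Finset.sum_congr rfl fun i _ => by ring

theorem comb_zero {ι μ : Type*} [Fintype ι] (w : ι → μ → E) : comb w 0 = 0 := by
  funext l
  simp [comb]

theorem comb_inj {F ι μ : Type*} [Field F] [Fintype ι] {w : ι → μ → F}
    (hw : LinearIndependent F w) {u u' : ι → F} (h : comb w u = comb w u') : u = u' := by
  rw [comb_eq_sum, comb_eq_sum] at h
  have h1 := Fintype.linearIndependent_iff.1 hw (fun i => u i - u' i) (by
    simp only [sub_smul, Finset.sum_sub_distrib, h, sub_self])
  funext i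
  exact sub_eq_zero.1 (h1 i)

theorem comb_ne_zero {F ι μ : Type*} [Field F] [Fintype ι] {w : ι → μ → F}
    (hw : LinearIndependent F w) {u : ι → F} (h : u ≠ 0) : comb w u ≠ 0 := fun h0 =>
  h (comb_inj hw (h0.trans (comb_zero w).symm))

end Lin

/-! ### The data of an endomorphism of a projective bundle -/

/-- The data: the rank `R` of the bundle, the fibre degree `q`, the degrees `c` (columns), `(q, m)`
(map on the fibres) and `e` (map on the base), the cone `Wc` of the nonzero vectors over the base, the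
columns `B`, the forms `P` giving the map locally, the forms `G` giving the map of the base locally,
the map `gv` of the base and the map `fv` of the fibres on vectors. -/
structure Sys (E : Type*) [Field E] (M N s nP nG : ℕ) where
  R : ℕ
  q : ℕ
  c : ℕ
  m : ℕ
  e : ℕ
  Wc : Set (Fin N → E)
  B : Fin s → Fin M → MvPolynomial (Fin N) E
  P : Fin nP → Fin M → MvPolynomial (Fin M ⊕ Fin N) E
  G : Fin nG → Fin N → MvPolynomial (Fin N) E
  gv : (Fin N → E) → Fin N → E
  fv : (Fin M → E) → (Fin N → E) → Fin M → E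

section Sys

variable {E : Type*} [Field E] {M N s nP nG : ℕ}

namespace Sys

variable (S : Sys E M N s nP nG)

/-- The `j`-th column at `y`. -/
noncomputable def col (y : Fin N → E) (j : Fin s) : Fin M → E := fun i => eval y (S.B j i)

/-- The fibre of the bundle at `y`. -/
def fib (y : Fin N → E) : Submodule E (Fin M → E) := Submodule.span E (Set.range (S.col y))

/-- The value of the `k`-th tuple of forms. -/
noncomputable def Pv (k : Fin nP) (z : Fin M → E) (y : Fin N → E) : Fin M → E :=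
  fun i => eval (pt z y) (S.P k i)

/-- The value of the `l`-th tuple of forms of the base. -/
noncomputable def Gv (l : Fin nG) (y : Fin N → E) : Fin N → E := fun i => eval y (S.G l i)

/-- The conditions on the data. -/
structure Good : Prop where
  hR : 2 ≤ S.R
  hq : 1 ≤ S.q
  W_ne0 : ∀ y ∈ S.Wc, y ≠ 0
  W_smul : ∀ y ∈ S.Wc, ∀ t : E, t ≠ 0 → t • y ∈ S.Wc
  W_closed : ∀ y : Fin N → E, y ≠ 0 →
    (∀ (k : ℕ) (F : MvPolynomial (Fin N) E), F.IsHomogeneous k → (∀ x ∈ S.Wc, eval x F = 0) →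
      eval y F = 0) → y ∈ S.Wc
  W_prime : ∀ (F F' : MvPolynomial (Fin N) E) (k k' : ℕ), F.IsHomogeneous k →
    F'.IsHomogeneous k' → (∀ x ∈ S.Wc, eval x (F * F') = 0) →
      (∀ x ∈ S.Wc, eval x F = 0) ∨ (∀ x ∈ S.Wc, eval x F' = 0)
  W_nonempty : S.Wc.Nonempty
  B_hom : ∀ j i, (S.B j i).IsHomogeneous S.c
  rank : ∀ y ∈ S.Wc, Module.finrank E (S.fib y) = S.R
  P_bihom : ∀ k i, IsBihom (S.P k i) S.q S.m
  G_hom : ∀ l i, (S.G l i).IsHomogeneous S.e
  gv_mem : ∀ y ∈ S.Wc, S.gv y ∈ S.Wc
  gv_G : ∀ l, ∀ y ∈ S.Wc, ∃ t : E, S.Gv l y = t • S.gv y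
  G_ne : ∀ y ∈ S.Wc, ∃ l, S.Gv l y ≠ 0
  fv_mem : ∀ y ∈ S.Wc, ∀ z ∈ S.fib y, z ≠ 0 → S.fv z y ∈ S.fib (S.gv y)
  fv_ne : ∀ y ∈ S.Wc, ∀ z ∈ S.fib y, z ≠ 0 → S.fv z y ≠ 0
  fv_P : ∀ k, ∀ y ∈ S.Wc, ∀ z ∈ S.fib y, z ≠ 0 → ∃ t : E, S.Pv k z y = t • S.fv z y
  P_ne : ∀ y ∈ S.Wc, ∃ k, ∀ z ∈ S.fib y, z ≠ 0 → S.Pv k z y ≠ 0

/-- All the coefficients are in `K`. -/
structure OverK [CharZero E] (K : IntermediateField ℚ E) : Prop where
  B : ∀ j i d, (S.B j i).coeff d ∈ K
  P : ∀ k i d, (S.P k i).coeff d ∈ K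
  G : ∀ l i d, (S.G l i).coeff d ∈ K

/-- `w` is a basis of the fibre at `y`. -/
def IsBas (y : Fin N → E) (w : Fin S.R → Fin M → E) : Prop :=
  LinearIndependent E w ∧ Submodule.span E (Set.range w) = S.fib y

/-- In the bases `w`, `w'` the forms `P k` are given at `y` by the forms `p j` of degree `q`. -/
def IsFM (k : Fin nP) (y : Fin N → E) (w w' : Fin S.R → Fin M → E)
    (p : Fin S.R → MvPolynomial (Fin S.R) E) : Prop :=
  (∀ j, (p j).IsHomogeneous S.q) ∧
    ∀ u, S.Pv k (comb w u) y = comb w' (fun j => eval u (p j))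

/-- At `y` all the tuples `P k` are multiples `c k • P k0` of the tuple `P k0`, which has no zero
in the fibre. -/
def IsScAt (y : Fin N → E) (k0 : Fin nP) (c : Fin nP → E) : Prop :=
  c k0 = 1 ∧ (∀ z ∈ S.fib y, z ≠ 0 → S.Pv k0 z y ≠ 0) ∧
    ∀ k, ∀ z ∈ S.fib y, S.Pv k z y = c k • S.Pv k0 z y

open Classical in
/-- The vector of the factors of the tuples `P k` at `y`. -/
noncomputable def sc (y : Fin N → E) : Fin nP → E :=
  if h : ∃ c : Fin nP → E, ∃ k0, S.IsScAt y k0 c then h.choose else 0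

/-- The height defect at `y`. -/
noncomputable def lam [CharZero E] (y : Fin N → E) : ℝ :=
  S.m * absHeight y - absHeight (S.sc y)

/-- The orbit of a vector of the fibre. -/
def zo (z : Fin M → E) (y : Fin N → E) : ℕ → Fin M → E
  | 0 => z
  | n + 1 => S.fv (zo z y n) (S.gv^[n] y)

/-- The heights of the orbit of `y` grow slower than `q ^ n`. -/
def Growth [CharZero E] (y : Fin N → E) : Prop :=
  ∃ D ρ : ℝ, 0 ≤ D ∧ 1 ≤ ρ ∧ ρ < S.q ∧ ∀ n : ℕ, absHeight (S.gv^[n] y) ≤ D * ρ ^ n

/-- The least height in the fibre at `y`, up to a bounded quantity. -/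
noncomputable def bb [CharZero E] (y : Fin N → E) : ℝ :=
  -∑' i : ℕ, S.lam (S.gv^[i] y) / (S.q : ℝ) ^ (i + 1)

/-- The map of the fibre at `y` is a power map in suitable bases. -/
def IsPow (y : Fin N → E) : Prop :=
  ∃ w w' : Fin S.R → Fin M → E, S.IsBas y w ∧ S.IsBas (S.gv y) w' ∧
    ∀ u : Fin S.R → E, u ≠ 0 → ∃ t : E, t ≠ 0 ∧
      S.fv (comb w u) y = t • comb w' (fun i => u i ^ S.q)

end Sys

variable {S : Sys E M N s nP nG}

theorem col_smul (hS : S.Good) (t : E) (y : Fin N → E) (j : Fin s) :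
    S.col (t • y) j = t ^ S.c • S.col y j := by
  funext i
  exact Pool.Agent.KSF.eval_smul_form (hS.B_hom j i) t y

theorem Gv_smul (hS : S.Good) (t : E) (y : Fin N → E) (l : Fin nG) :
    S.Gv l (t • y) = t ^ S.e • S.Gv l y := by
  funext i
  exact Pool.Agent.KSF.eval_smul_form (hS.G_hom l i) t y

theorem Pv_smul (hS : S.Good) (s t : E) (z : Fin M → E) (y : Fin N → E) (k : Fin nP) :
    S.Pv k (s • z) (t • y) = (s ^ S.q * t ^ S.m) • S.Pv k z y := by
  funext i
  exact eval_smul_bihom (hS.P_bihom k i) s t z y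

/-- The fibre does not depend on the vector of homogeneous coordinates. -/
theorem fib_smul (hS : S.Good) {t : E} (ht : t ≠ 0) (y : Fin N → E) :
    S.fib (t • y) = S.fib y := by
  unfold Sys.fib
  apply le_antisymm
  · rw [Submodule.span_le]
    rintro _ ⟨j, rfl⟩
    rw [col_smul hS]
    exact Submodule.smul_mem _ _ (Submodule.subset_span (Set.mem_range_self j))
  · rw [Submodule.span_le]
    rintro _ ⟨j, rfl⟩
    have h : S.col y j = (t ^ S.c)⁻¹ • S.col (t • y) j := by
      rw [col_smul hS, smul_smul, inv_mul_cancel₀ (pow_ne_zero _ ht), one_smul]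
    rw [h]
    exact Submodule.smul_mem _ _ (Submodule.subset_span (Set.mem_range_self j))

theorem isBas_smul (hS : S.Good) {t : E} (ht : t ≠ 0) {y : Fin N → E}
    {w : Fin S.R → Fin M → E} : S.IsBas (t • y) w ↔ S.IsBas y w := by
  unfold Sys.IsBas
  rw [fib_smul hS ht]

theorem IsBas.comb_mem {y : Fin N → E} {w : Fin S.R → Fin M → E} (hw : S.IsBas y w)
    (u : Fin S.R → E) : comb w u ∈ S.fib y := by
  rw [← hw.2]
  exact O.comb_mem w u

theorem IsBas.exists_comb {y : Fin N → E} {w : Fin S.R → Fin M → E} (hw : S.IsBas y w)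
    {z : Fin M → E} (hz : z ∈ S.fib y) : ∃ u, comb w u = z := by
  rw [← hw.2] at hz
  exact O.exists_comb hz

theorem gv_iter_mem (hS : S.Good) {y : Fin N → E} (hy : y ∈ S.Wc) (n : ℕ) :
    S.gv^[n] y ∈ S.Wc := by
  induction n with
  | zero => exact hy
  | succ n ih =>
    rw [Function.iterate_succ_apply']
    exact hS.gv_mem _ ih

theorem zo_mem_ne (hS : S.Good) {y : Fin N → E} (hy : y ∈ S.Wc) {z : Fin M → E}
    (hz : z ∈ S.fib y) (hz0 : z ≠ 0) (n : ℕ) :
    S.zo z y n ∈ S.fib (S.gv^[n] y) ∧ S.zo z y n ≠ 0 := by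
  induction n with
  | zero => exact ⟨hz, hz0⟩
  | succ n ih =>
    rw [Function.iterate_succ_apply']
    exact ⟨hS.fv_mem _ (gv_iter_mem hS hy n) _ ih.1 ih.2,
      hS.fv_ne _ (gv_iter_mem hS hy n) _ ih.1 ih.2⟩

theorem zo_succ (z : Fin M → E) (y : Fin N → E) (n : ℕ) :
    S.zo z y (n + 1) = S.fv (S.zo z y n) (S.gv^[n] y) := rfl

/-- The orbit from the time `n` on. -/
theorem zo_add (z : Fin M → E) (y : Fin N → E) (n k : ℕ) :
    S.zo z y (n + k) = S.zo (S.zo z y n) (S.gv^[n] y) k := by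
  induction k with
  | zero => rfl
  | succ k ih =>
    rw [← add_assoc, zo_succ, zo_succ, ih, ← Function.iterate_add_apply, add_comm k n]

end Sys

/-! ### Types of chains of fibre maps -/

/-- The type of a chain of `m` fibre maps with a point: charts, the maps in suitable bases, the
coordinates of the point. -/
structure Typ (E : Type*) [Field E] (R m nP nG : ℕ) where
  k : Fin m → Fin nP
  t : Fin m → Fin nG
  p : Fin m → Fin R → MvPolynomial (Fin R) E
  a : Fin R → E

/-- The type is admissible. -/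
structure Typ.Adm {E : Type*} [Field E] {R m nP nG : ℕ} (τ : Typ E R m nP nG) (q : ℕ) : Prop where
  hom : ∀ i j, (τ.p i j).IsHomogeneous q
  noz : ∀ i, NoZero (τ.p i)
  a_ne : τ.a ≠ 0

/-- The vector `z` of the fibre at `y` has the type `τ`. -/
def Sys.HasTyp {E : Type*} [Field E] {M N s nP nG : ℕ} (S : Sys E M N s nP nG) {m : ℕ}
    (τ : Typ E S.R m nP nG) (z : Fin M → E) (y : Fin N → E) : Prop :=
  ∃ (Y : Fin (m + 1) → Fin N → E) (w : Fin (m + 1) → Fin S.R → Fin M → E),
    Y 0 = y ∧ (∀ i, Y i ∈ S.Wc) ∧ (∀ i : Fin m, Y i.succ = S.Gv (τ.t i) (Y i.castSucc)) ∧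
    (∀ i, S.IsBas (Y i) (w i)) ∧
    (∀ (i : Fin m) (u : Fin S.R → E), S.Pv (τ.k i) (comb (w i.castSucc) u) (Y i.castSucc) =
      comb (w i.succ) (fun j => eval u (τ.p i j))) ∧
    comb (w 0) τ.a = z

/-! ### Infinitesimal symmetries of a chain of homogeneous maps -/

/-- The matrices `A i` are an infinitesimal symmetry of the chain of the maps `p i`. -/
def IsChain {F : Type*} [CommRing F] {R m : ℕ} (p : Fin m → Fin R → MvPolynomial (Fin R) F)
    (A : Fin (m + 1) → Matrix (Fin R) (Fin R) F) : Prop :=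
  ∀ (i : Fin m) (k : Fin R),
    ∑ l, (∑ j, C (A i.castSucc l j) * X j) * pderiv l (p i k) = ∑ l, C (A i.succ k l) * p i l

end Pool.Agent.PBL.O
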