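import Pool.Agent.PBK.Stmt
import Pool.Agent.PBL.O.Defs

/-!
# PBK CSYS: from projective spaces to vectors

`csys` is the data `Sys` on vectors: `Wc` is the set of the nonzero vectors over `W`, `gv v` the
representative `rep` of `g [v]`, `fv z y` the representative of the first component of `f ([z], [y])`.

`csys_good`. For a nonzero vector `v` let `[v] = Projectivization.mk E v h`; `[v].rep = a • v` with a unit
`a` (`Projectivization.exists_smul_eq_mk_rep`), and `[a • v] = [v]` for `a ≠ 0`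
(`Projectivization.mk_eq_mk_iff'`). The value of a form at `v` and at `[v].rep` differ by a nonzero factor
(`Pool.Agent.KSF.eval_smul_form`, `eval_smul_bihom`), and the span of the columns at `v` and at
`[v].rep` are the same (the argument of `fib_smul`, or use it after checking the degrees). So:
* `W_closed`: `W` is the zero set of a set `I` of forms; these vanish on `Wc`.
* `W_prime`: for forms `F`, `F'` with `F * F' = 0` on `Wc`: `W` is contained in the union of the zero
  sets of `F` and of `F'`, irreducibility.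
* `rank`, `gv_mem`, `gv_G`, `G_ne`, `fv_mem`, `fv_ne` (`rep_nonzero`), `fv_P`, `P_ne`: from the
  hypotheses, at `[z]`, `[y]`.
`csys_gv`, `csys_zo`: `[y.rep] = y` (`Projectivization.mk_rep`); induction on `n`
(`f^[n] p ∈ bundle W B` by induction, `(f^[n] p).2 = g^[n] p.2`).
`csys_pow`: if `S.IsPow y.rep` with the bases `w`, `w'`; `S.gv y.rep = (g y).rep`. For `x` with
`x.rep = ∑ u_i w_i`, `u ≠ 0` since `x.rep ≠ 0`, and `S.fv x.rep y.rep = (f (x, y)).1.rep`.
-/

set_option autoImplicit false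

open MvPolynomial
open scoped LinearAlgebra.Projectivization

namespace Pool.Agent.PBL.O

open Pool.Agent.PBK

variable {E : Type*} [Field E] {M N s : ℕ}

open Classical in
/-- The data on vectors. -/
noncomputable def csys (W : Set (Pr E N))
    (B : Fin s → Fin (M + 1) → MvPolynomial (Fin (N + 1)) E) (R q c m e : ℕ) {nP nG : ℕ}
    (P : Fin nP → Fin (M + 1) → MvPolynomial (Fin (M + 1) ⊕ Fin (N + 1)) E)
    (G : Fin nG → Fin (N + 1) → MvPolynomial (Fin (N + 1)) E)
    (g : Pr E N → Pr E N) (f : Pr E M × Pr E N → Pr E M × Pr E N) :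
    Sys E (M + 1) (N + 1) s nP nG where
  R := R
  q := q
  c := c
  m := m
  e := e
  Wc := {v | ∃ h : v ≠ 0, Projectivization.mk E v h ∈ W}
  B := B
  P := P
  G := G
  gv v := if h : v ≠ 0 then (g (Projectivization.mk E v h)).rep else 0
  fv z y := if h : z ≠ 0 ∧ y ≠ 0 then
    (f (Projectivization.mk E z h.1, Projectivization.mk E y h.2)).1.rep else 0

variable {W : Set (Pr E N)} {B : Fin s → Fin (M + 1) → MvPolynomial (Fin (N + 1)) E}
  {R q c m e nP nG : ℕ} {P : Fin nP → Fin (M + 1) → MvPolynomial (Fin (M + 1) ⊕ Fin (N + 1)) E}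
  {G : Fin nG → Fin (N + 1) → MvPolynomial (Fin (N + 1)) E}
  {g : Pr E N → Pr E N} {f : Pr E M × Pr E N → Pr E M × Pr E N}

private theorem rep_eq (v : Fin (N + 1) → E) (hv : v ≠ 0) :
    ∃ t : E, t ≠ 0 ∧ v = t • (Projectivization.mk E v hv).rep := by
  obtain ⟨a, ha⟩ := Projectivization.exists_smul_eq_mk_rep E v hv
  refine ⟨((a⁻¹ : Eˣ) : E), Units.ne_zero _, ?_⟩
  rw [← ha, Units.smul_def, smul_smul, Units.inv_mul, one_smul]

private theorem mk_smul (v : Fin (N + 1) → E) (hv : v ≠ 0) {t : E} (ht : t ≠ 0) :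
    Projectivization.mk E (t • v) (smul_ne_zero ht hv) = Projectivization.mk E v hv := by
  rw [Projectivization.mk_eq_mk_iff']
  exact ⟨t, rfl⟩

private theorem mk_rep' (y : Pr E N) (h : y.rep ≠ 0) : Projectivization.mk E y.rep h = y :=
  Projectivization.mk_rep y

private theorem eval_rep {F : MvPolynomial (Fin (N + 1)) E} {k : ℕ} (hF : F.IsHomogeneous k)
    (v : Fin (N + 1) → E) (hv : v ≠ 0) :
    eval v F = 0 ↔ eval (Projectivization.mk E v hv).rep F = 0 := by
  obtain ⟨t, ht, he⟩ := rep_eq v hv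
  have h1 := Pool.Agent.KSF.eval_smul_form hF t (Projectivization.mk E v hv).rep
  rw [← he] at h1
  rw [h1, mul_eq_zero]
  constructor
  · rintro (h | h)
    · exact absurd h (pow_ne_zero _ ht)
    · exact h
  · exact Or.inr

private theorem fib_rep (hBc : ∀ j i, (B j i).IsHomogeneous c) (v : Fin (N + 1) → E)
    (hv : v ≠ 0) :
    (csys W B R q c m e P G g f).fib v = fibre B (Projectivization.mk E v hv) := by
  obtain ⟨t, ht, he⟩ := rep_eq v hv
  have hcol : ∀ j, (csys W B R q c m e P G g f).col v j =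
      t ^ c • fun i => eval (Projectivization.mk E v hv).rep (B j i) := by
    intro j
    funext i
    have h1 := Pool.Agent.KSF.eval_smul_form (hBc j i) t (Projectivization.mk E v hv).rep
    rw [← he] at h1
    exact h1
  unfold Sys.fib fibre
  apply le_antisymm
  · rw [Submodule.span_le]
    rintro _ ⟨j, rfl⟩
    rw [hcol]
    exact Submodule.smul_mem _ _ (Submodule.subset_span (Set.mem_range_self j))
  · rw [Submodule.span_le]
    rintro _ ⟨j, rfl⟩
    have h : (fun i => eval (Projectivization.mk E v hv).rep (B j i)) =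
        (t ^ c)⁻¹ • (csys W B R q c m e P G g f).col v j := by
      rw [hcol, smul_smul, inv_mul_cancel₀ (pow_ne_zero _ ht), one_smul]
    simp only
    rw [h]
    exact Submodule.smul_mem _ _ (Submodule.subset_span (Set.mem_range_self j))

private theorem gv_eq (v : Fin (N + 1) → E) (hv : v ≠ 0) :
    (csys W B R q c m e P G g f).gv v = (g (Projectivization.mk E v hv)).rep :=
  dif_pos hv

private theorem fv_eq (z : Fin (M + 1) → E) (hz : z ≠ 0) (v : Fin (N + 1) → E) (hv : v ≠ 0) :
    (csys W B R q c m e P G g f).fv z v =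
      (f (Projectivization.mk E z hz, Projectivization.mk E v hv)).1.rep :=
  dif_pos ⟨hz, hv⟩

private theorem mem_bundle (hBc : ∀ j i, (B j i).IsHomogeneous c) {z : Fin (M + 1) → E}
    (hz : z ≠ 0) {v : Fin (N + 1) → E} (hv : v ≠ 0) (hW : Projectivization.mk E v hv ∈ W)
    (hzv : z ∈ (csys W B R q c m e P G g f).fib v) :
    (Projectivization.mk E z hz, Projectivization.mk E v hv) ∈ bundle W B := by
  refine ⟨hW, ?_⟩
  change (Projectivization.mk E z hz).rep ∈ fibre B (Projectivization.mk E v hv)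
  rw [fib_rep hBc v hv] at hzv
  obtain ⟨a, ha⟩ := Projectivization.exists_smul_eq_mk_rep E z hz
  rw [← ha]
  exact Submodule.smul_mem _ _ hzv

theorem csys_good (hW : PClosed W) (hWi : PIrred W) (hBc : ∀ j i, (B j i).IsHomogeneous c)
    (hBR : ∀ y ∈ W, Module.finrank E (fibre B y) = R) (hR : 2 ≤ R) (hq : 1 ≤ q)
    (hgW : Set.MapsTo g W W) (hG : ∀ l i, (G l i).IsHomogeneous e)
    (hGg : ∀ l, ∀ y ∈ W, ∃ a : E, ∀ i, eval y.rep (G l i) = a * (g y).rep i)
    (hG0 : ∀ y ∈ W, ∃ l i, eval y.rep (G l i) ≠ 0)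
    (hf : ∀ p ∈ bundle W B, (f p).2 = g p.2 ∧ (f p).1.rep ∈ fibre B (g p.2))
    (hP : ∀ k i, Bihom (P k i) q m)
    (hPf : ∀ k, ∀ p ∈ bundle W B, ∃ a : E, ∀ i,
      eval (Sum.elim p.1.rep p.2.rep) (P k i) = a * (f p).1.rep i)
    (hP0 : ∀ y ∈ W, ∃ k, ∀ x : Pr E M, (x, y) ∈ bundle W B →
      ∃ i, eval (Sum.elim x.rep y.rep) (P k i) ≠ 0) :
    (csys W B R q c m e P G g f).Good := by
  have hrepW : ∀ y ∈ W, y.rep ∈ (csys W B R q c m e P G g f).Wc := fun y hy =>
    ⟨Projectivization.rep_nonzero y, by rw [mk_rep']; exact hy⟩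
  have hPv : ∀ k (z : Fin (M + 1) → E) (hz : z ≠ 0) (v : Fin (N + 1) → E) (hv : v ≠ 0),
      ∃ a : E, a ≠ 0 ∧ ∀ i, (csys W B R q c m e P G g f).Pv k z v i =
        a * eval (Sum.elim (Projectivization.mk E z hz).rep
          (Projectivization.mk E v hv).rep) (P k i) := by
    intro k z hz v hv
    obtain ⟨t, ht, he⟩ := rep_eq z hz
    obtain ⟨t', ht', he'⟩ := rep_eq v hv
    refine ⟨t ^ q * t' ^ m, mul_ne_zero (pow_ne_zero _ ht) (pow_ne_zero _ ht'), fun i => ?_⟩
    have h1 := eval_smul_bihom (F := P k i) (hP k i) t t' (Projectivization.mk E z hz).rep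
      (Projectivization.mk E v hv).rep
    rw [← he, ← he'] at h1
    exact h1
  exact {
    hR := hR
    hq := hq
    W_ne0 := fun y hy => hy.1
    W_smul := by
      rintro y ⟨h, hy⟩ t ht
      refine ⟨smul_ne_zero ht h, ?_⟩
      rw [mk_smul y h ht]
      exact hy
    W_closed := by
      intro y hy h
      refine ⟨hy, ?_⟩
      obtain ⟨I, hI, rfl⟩ := hW
      intro F hF
      obtain ⟨k, hk⟩ := hI F hF
      rw [← eval_rep hk y hy]
      apply h k F hk
      rintro x ⟨hx, hx2⟩
      rw [eval_rep hk x hx]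
      exact hx2 F hF
    W_prime := by
      intro F F' k k' hF hF' h
      have h1 := hWi.2 {y | eval y.rep F = 0} {y | eval y.rep F' = 0}
        ⟨{F}, fun _ h => ⟨k, h ▸ hF⟩, by ext y; simp⟩
        ⟨{F'}, fun _ h => ⟨k', h ▸ hF'⟩, by ext y; simp⟩ (by
          intro y hy
          have h2 := h y.rep (hrepW y hy)
          rw [map_mul, mul_eq_zero] at h2
          exact h2)
      rcases h1 with h1 | h1
      · left
        rintro x ⟨hx, hx2⟩
        rw [eval_rep hF x hx]
        exact h1 hx2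
      · right
        rintro x ⟨hx, hx2⟩
        rw [eval_rep hF' x hx]
        exact h1 hx2
    W_nonempty := by
      obtain ⟨y, hy⟩ := hWi.1
      exact ⟨y.rep, hrepW y hy⟩
    B_hom := hBc
    rank := by
      rintro y ⟨hy, hy2⟩
      rw [fib_rep hBc y hy]
      exact hBR _ hy2
    P_bihom := hP
    G_hom := hG
    gv_mem := by
      rintro y ⟨hy, hy2⟩
      rw [gv_eq y hy]
      exact hrepW _ (hgW hy2)
    gv_G := by
      rintro l y ⟨hy, hy2⟩
      obtain ⟨a, ha⟩ := hGg l _ hy2
      obtain ⟨t, ht, he⟩ := rep_eq y hy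
      refine ⟨t ^ e * a, ?_⟩
      rw [gv_eq y hy]
      funext i
      have h1 := Pool.Agent.KSF.eval_smul_form (hG l i) t (Projectivization.mk E y hy).rep
      rw [← he, ha i] at h1
      change eval y (G l i) = _
      rw [h1, Pi.smul_apply, smul_eq_mul, mul_assoc]
    G_ne := by
      rintro y ⟨hy, hy2⟩
      obtain ⟨l, i, hli⟩ := hG0 _ hy2
      refine ⟨l, fun h => hli ?_⟩
      rw [← eval_rep (hG l i) y hy]
      exact congrFun h i
    fv_mem := by
      rintro y ⟨hy, hy2⟩ z hz hz0
      rw [gv_eq y hy, fv_eq z hz0 y hy]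
      exact (hf _ (mem_bundle hBc hz0 hy hy2 hz)).2
    fv_ne := by
      rintro y ⟨hy, hy2⟩ z hz hz0
      rw [fv_eq z hz0 y hy]
      exact Projectivization.rep_nonzero _
    fv_P := by
      rintro k y ⟨hy, hy2⟩ z hz hz0
      obtain ⟨a, ha⟩ := hPf k _ (mem_bundle hBc hz0 hy hy2 hz)
      obtain ⟨b, -, hb⟩ := hPv k z hz0 y hy
      refine ⟨b * a, ?_⟩
      rw [fv_eq z hz0 y hy]
      funext i
      rw [hb i, ha i, Pi.smul_apply, smul_eq_mul, mul_assoc]
    P_ne := by
      rintro y ⟨hy, hy2⟩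
      obtain ⟨k, hk⟩ := hP0 _ hy2
      refine ⟨k, fun z hz hz0 h => ?_⟩
      obtain ⟨i, hi⟩ := hk _ (mem_bundle hBc hz0 hy hy2 hz)
      obtain ⟨b, hb0, hb⟩ := hPv k z hz0 y hy
      have h1 := congrFun h i
      rw [hb i, Pi.zero_apply] at h1
      exact (mul_ne_zero hb0 hi) h1 }

theorem csys_gv (y : Pr E N) (n : ℕ) :
    (csys W B R q c m e P G g f).gv^[n] y.rep = (g^[n] y).rep := by
  induction n with
  | zero => rfl
  | succ n ih =>
    rw [Function.iterate_succ_apply', ih, gv_eq _ (Projectivization.rep_nonzero _), mk_rep',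
      Function.iterate_succ_apply']

theorem csys_zo (hgW : Set.MapsTo g W W)
    (hf : ∀ p ∈ bundle W B, (f p).2 = g p.2 ∧ (f p).1.rep ∈ fibre B (g p.2))
    {p : Pr E M × Pr E N} (hp : p ∈ bundle W B) (n : ℕ) :
    (csys W B R q c m e P G g f).zo p.1.rep p.2.rep n = (f^[n] p).1.rep ∧
      (f^[n] p).2 = g^[n] p.2 ∧ f^[n] p ∈ bundle W B := by
  induction n with
  | zero => exact ⟨rfl, rfl, hp⟩
  | succ n ih =>
    obtain ⟨h1, h2, h3⟩ := ih
    obtain ⟨h4, h5⟩ := hf _ h3
    rw [Function.iterate_succ_apply', Function.iterate_succ_apply']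
    refine ⟨?_, by rw [h4, h2], ?_⟩
    · change (csys W B R q c m e P G g f).fv ((csys W B R q c m e P G g f).zo p.1.rep p.2.rep n)
        ((csys W B R q c m e P G g f).gv^[n] p.2.rep) = _
      rw [h1, csys_gv, fv_eq _ (Projectivization.rep_nonzero _) _ (Projectivization.rep_nonzero _),
        mk_rep', mk_rep', ← h2]
    · refine ⟨?_, ?_⟩
      · rw [h4]
        exact hgW h3.1
      · rw [h4]
        exact h5

private theorem pow_aux {v : Fin (N + 1) → E} (hv : v ≠ 0)
    (hfib : (csys W B R q c m e P G g f).fib v = fibre B (Projectivization.mk E v hv))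
    (h : (csys W B R q c m e P G g f).IsPow v) :
    PowerAt B R g f q (Projectivization.mk E v hv) := by
  obtain ⟨w, w', hw, hw', hpow⟩ := h
  have hspan : Submodule.span E (Set.range w') = fibre B (g (Projectivization.mk E v hv)) := by
    refine hw'.2.trans ?_
    rw [gv_eq v hv]
    rfl
  have key : ∀ (u : Fin (csys W B R q c m e P G g f).R → E) (x : Pr E M), x.rep = comb w u →
      ∃ t : E, (f (x, Projectivization.mk E v hv)).1.rep = t • comb w' (fun i => u i ^ q) := by
    intro u x hx'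
    have hu : u ≠ 0 := by
      rintro rfl
      rw [comb_zero] at hx'
      exact Projectivization.rep_nonzero x hx'
    obtain ⟨t, ht, he⟩ := hpow u hu
    refine ⟨t, ?_⟩
    rw [← hx', fv_eq _ (Projectivization.rep_nonzero _) v hv, mk_rep'] at he
    exact he
  refine ⟨w, w', hw.1, hw.2.trans hfib, hw'.1, hspan, ?_⟩
  intro u x hx
  obtain ⟨t, ht⟩ := key u x (hx.trans (comb_eq_sum w u).symm)
  exact ⟨t, ht.trans (congrArg (t • ·) (comb_eq_sum w' fun i => u i ^ q))⟩

theorem csys_pow {y : Pr E N} (h : (csys W B R q c m e P G g f).IsPow y.rep) :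
    PowerAt B R g f q y := by
  have h1 := pow_aux (Projectivization.rep_nonzero y) (by rw [mk_rep']; rfl) h
  rwa [mk_rep'] at h1

theorem csys_pow_smul (hW : PClosed W) (hWi : PIrred W)
    (hS : (csys W B R q c m e P G g f).Good) {v : Fin (N + 1) → E} (hv : v ≠ 0)
    (h : (csys W B R q c m e P G g f).IsPow v) :
    PowerAt B R g f q (Projectivization.mk E v hv) :=
  pow_aux hv (fib_rep hS.B_hom v hv) h

end Pool.Agent.PBL.O
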