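import Pool.Agent.PBL.O.Dyd

/-!
# PBK DYG: every iterate of the map of the base is given by forms

Induction: for `n = 0` the variables `X i` (`d = 1`; `W_nonempty`, `W_ne0`). Let `G` of degree `d`
represent `S.gv^[n]`, nonzero at `y0 ∈ S.Wc`: `G (y0) = c • S.gv^[n] y0`, `c ≠ 0`. Choose `l` with
`S.Gv l (S.gv^[n] y0) ≠ 0` (`G_ne`, `gv_iter_mem`). The forms `bind₁ G (S.G l i)` of degree `d * S.e`
(`IsHomogeneous.aeval` or `IsHomogeneous.eval₂`) represent `S.gv^[n + 1]`: their value at `y` with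
`G (y) = c • S.gv^[n] y` is `c ^ e • S.Gv l (S.gv^[n] y)` (`Gv_smul`), a multiple of `S.gv^[n + 1] y`
(`gv_G`), nonzero for `y = y0`. (`Function.iterate_succ_apply'`.)
-/

set_option autoImplicit false

open MvPolynomial

namespace Pool.Agent.PBL.O

variable {E : Type*} [Field E] {M N s nP nG : ℕ} {S : Sys E M N s nP nG}

theorem repG_exists (hS : S.Good) (n : ℕ) : ∃ d, RepG S n d := by
  induction n with
  | zero =>
    refine ⟨1, X, fun i => isHomogeneous_X E i, ?_, ?_⟩
    · obtain ⟨y, hy⟩ := hS.W_nonempty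
      obtain ⟨i, hi⟩ := Function.ne_iff.1 (hS.W_ne0 y hy)
      exact ⟨y, hy, i, by simpa using hi⟩
    · intro y _
      exact ⟨1, fun i => by simp⟩
  | succ n ih =>
    obtain ⟨d, G, hG, ⟨y0, hy0, i0, hi0⟩, hrep⟩ := ih
    have hmem : S.gv^[n] y0 ∈ S.Wc := gv_iter_mem hS hy0 n
    obtain ⟨l, hl⟩ := hS.G_ne _ hmem
    -- the value of the new forms
    have hval : ∀ y ∈ S.Wc, ∀ c : E, (∀ i, eval y (G i) = c * S.gv^[n] y i) →
        ∀ i, eval y (bind₁ G (S.G l i)) = c ^ S.e * S.Gv l (S.gv^[n] y) i := by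
      intro y _ c hc i
      have h1 : eval y (bind₁ G (S.G l i)) = eval (fun j => eval y (G j)) (S.G l i) := by
        rw [eval, eval₂Hom_bind₁]
        rfl
      have h2 : (fun j => eval y (G j)) = c • S.gv^[n] y := by
        funext j
        rw [hc j, Pi.smul_apply, smul_eq_mul]
      have h3 := congrFun (Gv_smul hS c (S.gv^[n] y) l) i
      rw [h1, h2]
      exact h3
    refine ⟨d * S.e, fun i => bind₁ G (S.G l i), fun i => ?_, ?_, ?_⟩
    · exact (hS.G_hom l i).aeval G hG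
    · obtain ⟨c, hc⟩ := hrep y0 hy0
      have hc0 : c ≠ 0 := by
        rintro rfl
        exact hi0 (by rw [hc i0, zero_mul])
      obtain ⟨i, hi⟩ := Function.ne_iff.1 hl
      refine ⟨y0, hy0, i, ?_⟩
      rw [hval y0 hy0 c hc i]
      exact mul_ne_zero (pow_ne_zero _ hc0) hi
    · intro y hy
      obtain ⟨c, hc⟩ := hrep y hy
      obtain ⟨t, ht⟩ := hS.gv_G l _ (gv_iter_mem hS hy n)
      refine ⟨c ^ S.e * t, fun i => ?_⟩
      rw [hval y hy c hc i, ht, Function.iterate_succ_apply', Pi.smul_apply, smul_eq_mul, mul_assoc]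

end Pool.Agent.PBL.O
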