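import Pool.Agent.PBL.O.Dyd

/-!
# PBK DYP: degrees of proportional forms

`prop_deg`: forms `A i` of degree `a`, not all zero, proportional to forms `p i` of degree `Q` without
nontrivial common zero (`R ≥ 2`): then `Q ≤ a`. Proof (compare `PropC.lean`): choose `u0 ≠ 0` with
`A i0 u0 ≠ 0` for some `i0` (`E` is infinite: `MvPolynomial.funext`; if `u0 = 0` then `a = 0` and the form
is constant, take any nonzero vector), and `v` not a multiple of `u0`. The polynomials in one variable
`p_i (v + s u0)` have no common zero, so they generate the unit ideal of `E[s]`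
(`IsAlgClosed`: otherwise the generator of the ideal they span has a root; take `1 = ∑ b_i p_i(v + s u0)`).
From `A_i (v + s u0) p_j (v + s u0) = A_j (v + s u0) p_i (v + s u0)` for every `s` (so as polynomials, `E`
infinite) one gets `A_j (v + s u0) = T * p_j (v + s u0)` for all `j` with `T = ∑ b_i A_i (v + s u0)`. The
coefficient of `s ^ a` of `A_i0 (v + s u0)` is `A_i0 u0 ≠ 0`, so `T ≠ 0`. Choose `j` with
`p_j u0 ≠ 0`: `p_j (v + s u0)` has degree exactly `Q` (its coefficient of `s ^ Q` is `p_j u0`), so
`A_j (v + s u0)` has degree `≥ Q`, and it has degree `≤ a`. (`ι` may be infinite: use a finite subset of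
the `p_i`, or the ideal generated by all of them is principal.)


-/

set_option autoImplicit false

open MvPolynomial

namespace Pool.Agent.PBL.O

section Line

variable {E : Type*} [Field E] {R : ℕ}

/-- The restriction to the line `v + s u`. -/
private noncomputable def dypL (v u : Fin R → E) : MvPolynomial (Fin R) E →ₐ[E] Polynomial E :=
  aeval fun l => Polynomial.C (u l) * Polynomial.X + Polynomial.C (v l)

private theorem dypL_eval (v u : Fin R → E) (P : MvPolynomial (Fin R) E) (s : E) :
    Polynomial.eval s (dypL v u P) = eval (v + s • u) P := by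
  have h : ((Polynomial.aeval s : Polynomial E →ₐ[E] E).comp (dypL v u)) =
      (aeval (v + s • u) : MvPolynomial (Fin R) E →ₐ[E] E) := by
    refine MvPolynomial.algHom_ext fun l => ?_
    simp only [dypL, AlgHom.comp_apply, aeval_X, map_add, map_mul, Polynomial.aeval_X,
      Polynomial.aeval_C, Algebra.algebraMap_self, RingHom.id_apply, Pi.add_apply, Pi.smul_apply,
      smul_eq_mul]
    ring
  have h1 := DFunLike.congr_fun h P
  rw [AlgHom.comp_apply, Polynomial.coe_aeval_eq_eval, aeval_eq_eval] at h1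
  exact h1

private theorem dypL_mono (v u : Fin R → E) (d : Fin R →₀ ℕ) (t : Finset (Fin R)) :
    (∏ l ∈ t, (Polynomial.C (u l) * Polynomial.X + Polynomial.C (v l)) ^ d l).natDegree ≤
        ∑ l ∈ t, d l ∧
      (∏ l ∈ t, (Polynomial.C (u l) * Polynomial.X + Polynomial.C (v l)) ^ d l).coeff
        (∑ l ∈ t, d l) = ∏ l ∈ t, u l ^ d l := by
  classical
  induction t using Finset.induction_on with
  | empty => simp
  | insert l t hl ih =>
    rw [Finset.prod_insert hl, Finset.sum_insert hl, Finset.prod_insert hl]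
    have h1 : (Polynomial.C (u l) * Polynomial.X + Polynomial.C (v l)).natDegree ≤ 1 :=
      Polynomial.natDegree_linear_le
    have h2 : ((Polynomial.C (u l) * Polynomial.X + Polynomial.C (v l)) ^ d l).natDegree ≤
        d l := by
      have := Polynomial.natDegree_pow_le_of_le (d l) h1
      rwa [mul_one] at this
    have h3 : ((Polynomial.C (u l) * Polynomial.X + Polynomial.C (v l)) ^ d l).coeff (d l) =
        u l ^ d l := by
      have := Polynomial.coeff_pow_of_natDegree_le (m := d l) h1
      rw [mul_one] at this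
      rw [this]
      simp
    refine ⟨Polynomial.natDegree_mul_le_of_le h2 ih.1, ?_⟩
    rw [Polynomial.coeff_mul_add_eq_of_natDegree_le h2 ih.1, h3, ih.2]

private theorem dypL_deg (v u : Fin R → E) (P : MvPolynomial (Fin R) E) (k : ℕ)
    (hP : P.IsHomogeneous k) :
    (dypL v u P).natDegree ≤ k ∧ (dypL v u P).coeff k = eval u P := by
  have hd : ∀ d ∈ P.support, ∑ l, d l = k := by
    intro d hd
    have h4 := hP (mem_support_iff.1 hd)
    rw [← h4, Finsupp.weight_apply, Finsupp.sum_fintype _ _ (by simp)]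
    simp
  have h0 : dypL v u P = ∑ d ∈ P.support, Polynomial.C (coeff d P) *
      ∏ l, (Polynomial.C (u l) * Polynomial.X + Polynomial.C (v l)) ^ d l := by
    rw [dypL, aeval_def, eval₂_eq']
    rfl
  constructor
  · rw [h0]
    refine Polynomial.natDegree_sum_le_of_forall_le _ _ fun d hd' => ?_
    refine (Polynomial.natDegree_C_mul_le _ _).trans ?_
    rw [← hd d hd']
    exact (dypL_mono v u d Finset.univ).1
  · rw [h0, Polynomial.finsetSum_coeff, eval_eq']
    refine Finset.sum_congr rfl fun d hd' => ?_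
    rw [Polynomial.coeff_C_mul, ← (dypL_mono v u d Finset.univ).2, hd d hd']

end Line

theorem prop_deg {E : Type*} [Field E] [IsAlgClosed E] {R a Q : ℕ} (hR : 2 ≤ R) {ι : Type*}
    (A p : ι → MvPolynomial (Fin R) E) (hA : ∀ i, (A i).IsHomogeneous a)
    (hp : ∀ i, (p i).IsHomogeneous Q) (h0 : NoZero p) (hA0 : ∃ i, A i ≠ 0)
    (h : ∀ u : Fin R → E, u ≠ 0 → ∃ t : E, ∀ i, eval u (A i) = t * eval u (p i)) : Q ≤ a := by
  classical
  have hinf : Infinite E := IsAlgClosed.instInfinite
  obtain ⟨i0, hi0⟩ := hA0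
  let z0 : Fin R := ⟨0, by omega⟩
  let z1 : Fin R := ⟨1, by omega⟩
  have hz : z0 ≠ z1 := by
    intro h
    have := congrArg Fin.val h
    simp [z0, z1] at this
  -- the vector `u0`
  obtain ⟨u0, hu0⟩ : ∃ u0 : Fin R → E, eval u0 (A i0 * X z0) ≠ 0 := by
    by_contra hcon
    push Not at hcon
    have : A i0 * X z0 = 0 := MvPolynomial.funext fun x => by rw [hcon x, map_zero]
    rcases mul_eq_zero.1 this with h1 | h1
    · exact hi0 h1
    · exact X_ne_zero z0 h1
  rw [map_mul, eval_X] at hu0
  have hA0 : eval u0 (A i0) ≠ 0 := left_ne_zero_of_mul hu0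
  have hu00 : u0 z0 ≠ 0 := right_ne_zero_of_mul hu0
  have hu0ne : u0 ≠ 0 := by
    rintro rfl
    exact hu00 rfl
  set v : Fin R → E := Pi.single z1 1 with hv
  have hvs : ∀ s : E, v + s • u0 ≠ 0 := by
    intro s hs
    have h1 := congrFun hs z0
    have h2 := congrFun hs z1
    rw [hv] at h1 h2
    simp only [Pi.add_apply, Pi.smul_apply, smul_eq_mul, Pi.zero_apply, Pi.single_eq_same] at h1 h2
    rw [Pi.single_eq_of_ne hz, zero_add] at h1
    have h3 : s = 0 := by
      rcases mul_eq_zero.1 h1 with h | h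
      · exact h
      · exact absurd h hu00
    rw [h3, zero_mul, add_zero] at h2
    exact one_ne_zero h2
  -- the ideal
  have h1 : (1 : Polynomial E) ∈ Ideal.span (Set.range fun i => dypL v u0 (p i)) := by
    rw [← Ideal.eq_top_iff_one]
    by_contra hne
    set I : Ideal (Polynomial E) := Ideal.span (Set.range fun i => dypL v u0 (p i)) with hI
    obtain ⟨M, hM, hIM⟩ := Ideal.exists_le_maximal I hne
    obtain ⟨g, hg⟩ := (IsPrincipalIdealRing.principal M).principal
    have hg' : M = Ideal.span {g} := hg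
    have hgu : ¬ IsUnit g := by
      intro hu
      apply hM.ne_top
      rw [hg', Ideal.span_singleton_eq_top]
      exact hu
    have hroot : ∃ s, Polynomial.eval s g = 0 := by
      by_cases hg0 : g = 0
      · exact ⟨0, by rw [hg0, Polynomial.eval_zero]⟩
      · have hdeg : g.degree ≠ 0 := fun hd => hgu (Polynomial.isUnit_iff_degree_eq_zero.2 hd)
        obtain ⟨s, hs⟩ := IsAlgClosed.exists_root g hdeg
        exact ⟨s, hs⟩
    obtain ⟨s, hs⟩ := hroot
    obtain ⟨i, hi⟩ := h0 (v + s • u0) (hvs s)
    apply hi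
    rw [← dypL_eval]
    have hmem : dypL v u0 (p i) ∈ Ideal.span {g} := by
      rw [← hg']
      exact hIM (Ideal.subset_span ⟨i, rfl⟩)
    obtain ⟨b, hb⟩ := Ideal.mem_span_singleton'.1 hmem
    rw [← hb, Polynomial.eval_mul, hs, mul_zero]
  obtain ⟨b, hb⟩ := (Finsupp.mem_ideal_span_range_iff_exists_finsupp).1 h1
  -- the relations
  have hrel : ∀ i j, dypL v u0 (A i) * dypL v u0 (p j) = dypL v u0 (A j) * dypL v u0 (p i) := by
    intro i j
    refine Polynomial.funext fun s => ?_
    rw [Polynomial.eval_mul, Polynomial.eval_mul, dypL_eval, dypL_eval, dypL_eval, dypL_eval]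
    obtain ⟨t, ht⟩ := h (v + s • u0) (hvs s)
    rw [ht i, ht j]
    ring
  set T : Polynomial E := b.sum fun i c => c * dypL v u0 (A i) with hT
  have hTj : ∀ j, dypL v u0 (A j) = T * dypL v u0 (p j) := by
    intro j
    rw [hT, Finsupp.sum, Finset.sum_mul]
    have : ∀ i ∈ b.support, b i * dypL v u0 (A i) * dypL v u0 (p j) =
        dypL v u0 (A j) * (b i * dypL v u0 (p i)) := by
      intro i _
      rw [mul_assoc, hrel i j]
      ring
    rw [Finset.sum_congr rfl this, ← Finset.mul_sum]
    have hb' : ∑ i ∈ b.support, b i * dypL v u0 (p i) = 1 := hb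
    rw [hb', mul_one]
  have hT0 : T ≠ 0 := by
    intro hT0
    have h2 := (dypL_deg v u0 (A i0) a (hA i0)).2
    rw [hTj i0, hT0, zero_mul, Polynomial.coeff_zero] at h2
    exact hA0 h2.symm
  obtain ⟨j, hj⟩ := h0 u0 hu0ne
  have h3 : Q ≤ (dypL v u0 (p j)).natDegree :=
    Polynomial.le_natDegree_of_ne_zero (by rwa [(dypL_deg v u0 (p j) Q (hp j)).2])
  have h4 : dypL v u0 (p j) ≠ 0 := by
    intro h5
    have h6 := (dypL_deg v u0 (p j) Q (hp j)).2
    rw [h5, Polynomial.coeff_zero] at h6
    exact hj h6.symm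
  have h5 := (dypL_deg v u0 (A j) a (hA j)).1
  rw [hTj j, Polynomial.natDegree_mul hT0 h4] at h5
  omega

end Pool.Agent.PBL.O
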