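import Pool.Agent.PBL.O.Sub

/-!
# PBK FIBMAP: the map of a fibre in bases

Proof. Since `w'` is linearly independent, there is a left inverse: vectors `a j : Fin M → E`
(`j : Fin S.R`) with `∑ l, a j l * w' i l = if i = j then 1 else 0`; if the `w' i` have coordinates in `K`,
then they are linearly independent over `K`, and the `a j` can be chosen with coordinates in `K`
(vectors over `K` which are linearly independent over `K` have a left inverse over `K`; or by
Cramer's rule: choose rows `I` with `det (w' i (I j)) ≠ 0`, the inverse of this square matrix has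
coefficients in `K`). Let `p j = ∑ l, C (a j l) * subP S k y w l` (`Sub.lean`): a form of degree
`S.q`, with coefficients in `K` if everything is over `K` (`coeff_subP_mem`). For `u : Fin S.R → E`
let `z = comb w u ∈ S.fib y`. Then `S.Pv k z y ∈ S.fib (S.gv y)`: if `z ≠ 0` it is a multiple of
`S.fv z y` (`fv_P`, `fv_mem`), and if `z = 0` it is `0` (`Pv_smul_left` with `t = 0`, `S.q ≥ 2`). So
`S.Pv k z y = comb w' b` for some `b`, and `b j = ∑ l, a j l * S.Pv k z y l = eval u (p j)`
(`eval_subP`). No zero: `comb w' (p u) = S.Pv k (comb w u) y ≠ 0` for `u ≠ 0` (`comb_ne_zero`).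
To get one `p` which works for all `K` at once: `p` is uniquely determined by the values
(`E` is infinite: `CharZero`), so the `p` built with a left inverse over `K` is the same polynomial
(`MvPolynomial.funext` and `comb_inj`).
-/

set_option autoImplicit false

open MvPolynomial

namespace Pool.Agent.PBL.O

variable {E : Type*} [Field E] [CharZero E] {M N s nP nG : ℕ} {S : Sys E M N s nP nG}

/-- A left inverse of a linearly independent family. -/
private theorem fm_left {F : Type*} [Field F] {R M : ℕ} (w : Fin R → Fin M → F)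
    (hw : LinearIndependent F w) :
    ∃ a : Fin R → Fin M → F, ∀ i j, ∑ l, a j l * w i l = if i = j then 1 else 0 := by
  have hker : LinearMap.ker (Fintype.linearCombination F w) = ⊥ := by
    rw [LinearMap.ker_eq_bot']
    intro m hm
    rw [Fintype.linearCombination_apply] at hm
    exact funext (Fintype.linearIndependent_iff.1 hw m hm)
  obtain ⟨g, hg⟩ := LinearMap.exists_leftInverse_of_injective _ hker
  refine ⟨fun j l => g (Pi.single l 1) j, fun i j => ?_⟩
  have h1 : g (w i) = Pi.single i 1 := by
    have h2 := LinearMap.congr_fun hg (Pi.single i 1)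
    rw [LinearMap.comp_apply, Fintype.linearCombination_apply_single, one_smul,
      LinearMap.id_apply] at h2
    exact h2
  have h3 : w i = ∑ l, w i l • (Pi.single l 1 : Fin M → F) := by
    rw [← pi_eq_sum_univ' (w i)]
  have h4 : g (w i) j = ∑ l, g (Pi.single l 1) j * w i l := by
    conv_lhs => rw [h3]
    rw [map_sum, Finset.sum_apply]
    refine Finset.sum_congr rfl fun l _ => ?_
    rw [map_smul, Pi.smul_apply, smul_eq_mul, mul_comm]
  rw [← h4, h1, Pi.single_apply]
  simp only [eq_comm]

/-- A left inverse over `K`. -/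
private theorem fm_leftK {E : Type*} [Field E] [CharZero E] (K : IntermediateField ℚ E)
    {R M : ℕ} (w : Fin R → Fin M → E)
    (hw : LinearIndependent E w) (hK : ∀ i j, w i j ∈ K) :
    ∃ a : Fin R → Fin M → E, (∀ j l, a j l ∈ K) ∧
      ∀ i j, ∑ l, a j l * w i l = if i = j then 1 else 0 := by
  have h1 : LinearIndependent K (fun i j => (⟨w i j, hK i j⟩ : K)) := by
    rw [Fintype.linearIndependent_iff] at hw ⊢
    intro g hg i
    have h2 := hw (fun i => (g i : E)) (by
      funext l
      have h3 := congrArg (Subtype.val) (congrFun hg l)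
      simpa [Finset.sum_apply] using h3) i
    exact Subtype.ext h2
  obtain ⟨a, ha⟩ := fm_left _ h1
  refine ⟨fun j l => (a j l : E), fun j l => (a j l).2, fun i j => ?_⟩
  have h2 := congrArg (Subtype.val) (ha i j)
  have h3 : ((∑ l, a j l * (⟨w i l, hK i l⟩ : K) : K) : E) = ∑ l, (a j l : E) * w i l := by
    push_cast
    rfl
  rw [← h3, h2]
  split_ifs <;> rfl

section

variable {E : Type*} [Field E] {M N s nP nG : ℕ} {S : Sys E M N s nP nG}

/-- The values of the forms are in the fibre. -/
private theorem fm_mem (hS : S.Good) {y : Fin N → E} (hy : y ∈ S.Wc) (k : Fin nP)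
    {z : Fin M → E} (hz : z ∈ S.fib y) : S.Pv k z y ∈ S.fib (S.gv y) := by
  by_cases h0 : z = 0
  · have h1 := Pv_smul_left hS 0 z y k
    rw [zero_smul, zero_pow (by have := hS.hq; omega), zero_smul] at h1
    rw [h0, h1]
    exact Submodule.zero_mem _
  · obtain ⟨t, ht⟩ := hS.fv_P k y hy z hz h0
    rw [ht]
    exact Submodule.smul_mem _ _ (hS.fv_mem y hy z hz h0)

/-- The forms from a left inverse. -/
private theorem fm_isFM (hS : S.Good) {y : Fin N → E} (hy : y ∈ S.Wc) (k : Fin nP)
    {w w' : Fin S.R → Fin M → E} (hw : S.IsBas y w) (hw' : S.IsBas (S.gv y) w')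
    (a : Fin S.R → Fin M → E) (ha : ∀ i j, ∑ l, a j l * w' i l = if i = j then 1 else 0) :
    S.IsFM k y w w' (fun j => ∑ l, C (a j l) * subP S k y w l) := by
  refine ⟨fun j => IsHomogeneous.sum _ _ _ fun l _ => (subP_hom hS k y w l).C_mul _, fun u => ?_⟩
  obtain ⟨b, hb⟩ := IsBas.exists_comb hw' (fm_mem hS hy k (IsBas.comb_mem hw u))
  rw [← hb]
  congr 1
  funext j
  rw [map_sum]
  have h1 : ∀ l, eval u (C (a j l) * subP S k y w l) = ∑ i, a j l * (b i * w' i l) := by
    intro l
    rw [map_mul, eval_C, eval_subP, ← hb, comb, Finset.mul_sum]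
  rw [Finset.sum_congr rfl fun l _ => h1 l, Finset.sum_comm]
  have h2 : ∀ i, ∑ l, a j l * (b i * w' i l) = b i * if i = j then 1 else 0 := by
    intro i
    rw [← ha i j, Finset.mul_sum]
    exact Finset.sum_congr rfl fun l _ => by ring
  rw [Finset.sum_congr rfl fun i _ => h2 i]
  simp

end

theorem fibmap (hS : S.Good) {y : Fin N → E} (hy : y ∈ S.Wc) (k : Fin nP)
    {w w' : Fin S.R → Fin M → E} (hw : S.IsBas y w) (hw' : S.IsBas (S.gv y) w') :
    ∃ p : Fin S.R → MvPolynomial (Fin S.R) E, S.IsFM k y w w' p ∧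
      ((∀ z ∈ S.fib y, z ≠ 0 → S.Pv k z y ≠ 0) → NoZero p) ∧
      ∀ K : IntermediateField ℚ E, S.OverK K → (∀ i, y i ∈ K) → (∀ i j, w i j ∈ K) →
        (∀ i j, w' i j ∈ K) → ∀ j d, (p j).coeff d ∈ K := by
  obtain ⟨a, ha⟩ := fm_left w' hw'.1
  have hp := fm_isFM hS hy k hw hw' a ha
  refine ⟨_, hp, fun hP u hu => ?_, fun K hK hyK hwK hwK' j d => ?_⟩
  · by_contra hne
    push Not at hne
    refine hP (comb w u) (IsBas.comb_mem hw u) (comb_ne_zero hw.1 hu) ?_
    rw [hp.2 u]
    have h1 : (fun j => eval u (∑ l, C (a j l) * subP S k y w l)) = 0 := funext hne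
    rw [h1, comb_zero]
  · obtain ⟨b, hbK, hb⟩ := fm_leftK K w' hw'.1 hwK'
    have hp2 := fm_isFM hS hy k hw hw' b hb
    have h1 : (∑ l, C (a j l) * subP S k y w l) = ∑ l, C (b j l) * subP S k y w l := by
      refine MvPolynomial.funext fun u => ?_
      have h2 := comb_inj hw'.1 ((hp.2 u).symm.trans (hp2.2 u))
      exact congrFun h2 j
    rw [h1, coeff_sum]
    refine sum_mem fun l _ => ?_
    rw [coeff_C_mul]
    exact mul_mem (hbK j l) (coeff_subP_mem hK k hyK hwK l d)

end Pool.Agent.PBL.O
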