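import Pool.Agent.PBL.O.Defs

/-!
# PBK GDEFS: the generic chain. Definitions.

The data of a chain of fibre maps over a commutative ring `U` (`CD`), the unknowns (`Unk`) and the
equations (`IsSol`); the coordinate ring `RW` of the cone over the base, the ring `AA` of polynomials over
it in the variables `u_j`, and the chain data over `AA` of a type.
-/

set_option autoImplicit false

open MvPolynomial

namespace Pool.Agent.PBL.O

/-- The data of a chain of `m` fibre maps over `U`: the matrices of the columns, the maps, the model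
maps, the model point and the point. -/
structure CD (U : Type*) [CommRing U] (M s R m : ℕ) where
  Bm : Fin (m + 1) → Matrix (Fin M) (Fin s) U
  Pm : Fin m → Fin M → MvPolynomial (Fin M) U
  pm : Fin m → Fin R → MvPolynomial (Fin R) U
  av : Fin R → U
  zv : Fin M → U

/-- The unknowns. The basis number `i` consists of the columns of `Bm i * κ i`. -/
structure Unk (U : Type*) (M s R m : ℕ) where
  κ : Fin (m + 1) → Matrix (Fin s) (Fin R) U
  η : Fin (m + 1) → Matrix (Fin R) (Fin s) U
  γ : Fin (m + 1) → Matrix (Fin R) (Fin M) U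

/-- Linear substitution: `F (W u)`. -/
noncomputable def lsub {U : Type*} [CommRing U] {M R : ℕ} (W : Matrix (Fin M) (Fin R) U)
    (F : MvPolynomial (Fin M) U) : MvPolynomial (Fin R) U :=
  aeval (fun l => ∑ k, C (W l k) * X k) F

/-- The equations. -/
structure IsSol {U : Type*} [CommRing U] {M s R m : ℕ} (cd : CD U M s R m)
    (x : Unk U M s R m) : Prop where
  inj : ∀ i, x.γ i * (cd.Bm i * x.κ i) = 1
  gen : ∀ i, (cd.Bm i * x.κ i) * x.η i = cd.Bm i
  map : ∀ (i : Fin m) (j : Fin M), lsub (cd.Bm i.castSucc * x.κ i.castSucc) (cd.Pm i j) =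
    ∑ k, C ((cd.Bm i.succ * x.κ i.succ) j k) * cd.pm i k
  pnt : (cd.Bm 0 * x.κ 0).mulVec cd.av = cd.zv

/-- Base change of the data. -/
noncomputable def CD.map {U U' : Type*} [CommRing U] [CommRing U'] {M s R m : ℕ} (φ : U →+* U')
    (cd : CD U M s R m) : CD U' M s R m where
  Bm i := (cd.Bm i).map φ
  Pm i j := MvPolynomial.map φ (cd.Pm i j)
  pm i j := MvPolynomial.map φ (cd.pm i j)
  av i := φ (cd.av i)
  zv i := φ (cd.zv i)

section

variable {E : Type*} [Field E] {M N s nP nG : ℕ}

/-- The ideal of the polynomials vanishing on the cone over the base. -/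
def Sys.IW (S : Sys E M N s nP nG) : Ideal (MvPolynomial (Fin N) E) where
  carrier := {F | ∀ y ∈ S.Wc, eval y F = 0}
  add_mem' := by
    intro F F' hF hF' y hy
    rw [map_add, hF y hy, hF' y hy, add_zero]
  zero_mem' := fun y _ => map_zero _
  smul_mem' := by
    intro c F hF y hy
    rw [smul_eq_mul, map_mul, hF y hy, mul_zero]

/-- The coordinate ring of the cone over the base. -/
abbrev RW (S : Sys E M N s nP nG) : Type _ := MvPolynomial (Fin N) E ⧸ S.IW

/-- Polynomials in `u_1, ..., u_R` over the coordinate ring. -/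
abbrev AA (S : Sys E M N s nP nG) : Type _ := MvPolynomial (Fin S.R) (RW S)

/-- A polynomial in `y` as an element of `AA`. -/
noncomputable def ψ (S : Sys E M N s nP nG) : MvPolynomial (Fin N) E →+* AA S :=
  (C : RW S →+* AA S).comp (Ideal.Quotient.mk S.IW)

/-- Evaluation at a point of the cone over the base. -/
noncomputable def evRW (S : Sys E M N s nP nG) (y : Fin N → E) (hy : y ∈ S.Wc) : RW S →+* E :=
  Ideal.Quotient.lift S.IW (eval y) fun _ h => h y hy

/-- Evaluation at a vector `u` and a point of the cone over the base. -/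
noncomputable def evA (S : Sys E M N s nP nG) (y : Fin N → E) (hy : y ∈ S.Wc)
    (u : Fin S.R → E) : AA S →+* E :=
  eval₂Hom (evRW S y hy) u

theorem evA_ψ (S : Sys E M N s nP nG) (y : Fin N → E) (hy : y ∈ S.Wc) (u : Fin S.R → E)
    (F : MvPolynomial (Fin N) E) : evA S y hy u (ψ S F) = eval y F := by
  simp [evA, ψ, evRW]

theorem evA_X (S : Sys E M N s nP nG) (y : Fin N → E) (hy : y ∈ S.Wc) (u : Fin S.R → E)
    (j : Fin S.R) : evA S y hy u (X j) = u j := by
  simp [evA]

theorem evA_algebraMap (S : Sys E M N s nP nG) (y : Fin N → E) (hy : y ∈ S.Wc)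
    (u : Fin S.R → E) (c : E) : evA S y hy u (algebraMap E (AA S) c) = c := by
  have h : algebraMap E (AA S) c = ψ S (C c) := rfl
  rw [h, evA_ψ, eval_C]

/-- The polynomials giving the points `Y i` of a chain in terms of `Y 0`. -/
noncomputable def Yp (S : Sys E M N s nP nG) {m : ℕ} (t : Fin m → Fin nG) :
    ℕ → Fin N → MvPolynomial (Fin N) E
  | 0 => X
  | n + 1 => fun i => if h : n < m then bind₁ (Yp S t n) (S.G (t ⟨n, h⟩) i) else 0

/-- The chain data over `AA` of the type `τ`, for the columns `J`: the point is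
`∑ u_j * (column J j)`. -/
noncomputable def cdata (S : Sys E M N s nP nG) {m : ℕ} (τ : Typ E S.R m nP nG)
    (J : Fin S.R → Fin s) : CD (AA S) M s S.R m where
  Bm i := Matrix.of fun l j => ψ S (bind₁ (Yp S τ.t i) (S.B j l))
  Pm i j := MvPolynomial.map (ψ S)
    (aeval (Sum.elim (fun l => X l) (fun l => C (Yp S τ.t i l))) (S.P (τ.k i) j) :
      MvPolynomial (Fin M) (MvPolynomial (Fin N) E))
  pm i j := MvPolynomial.map (algebraMap E (AA S)) (τ.p i j)
  av i := algebraMap E (AA S) (τ.a i)
  zv l := ∑ j, X j * ψ S (S.B (J j) l)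

end

end Pool.Agent.PBL.O
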