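import Pool.Agent.PBL.O.Sub

/-!
# PBK RAT: scaling and orbits over `K`

* `gv_smul`: choose `l` with `S.Gv l (t • y) ≠ 0` (`G_ne`, `W_smul`); `S.Gv l (t • y) = t ^ e • S.Gv l y`
  (`Gv_smul`), and `S.Gv l (t • y) = a • S.gv (t • y)`, `S.Gv l y = b • S.gv y` (`gv_G`) with `a, b ≠ 0`.
* `rat_gv`: the same for a vector `y` proportional to a vector over `K`: `x = t • y` over `K`,
  `S.Gv l x` has coordinates in `K` (evaluation of a polynomial over `K`) and is a nonzero multiple of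
  `S.gv y`. Induction on `n` (`S.gv^[n + 1] y = S.gv (S.gv^[n] y)`).
* `rat_zo`: with `k` of `P_ne` for `S.gv^[n] y`: `S.Pv k z y` is a nonzero multiple of `S.fv z y`
  (`fv_P`), and `S.Pv k (s • z) (t • y) = (s ^ q * t ^ m) • S.Pv k z y` (`Pv_smul`). Induction on `n`.
* `rat_coord`: `w` over `K`, linearly independent, `c • comb w a` over `K`: then `c • a` is over `K` (a
  left inverse of `w` over `K`).
-/

set_option autoImplicit false

open MvPolynomial

namespace Pool.Agent.PBL.O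

section

variable {E : Type*} [Field E] {M N s nP nG : ℕ} {S : Sys E M N s nP nG}

/-- The value of a nonvanishing tuple `G l` is a multiple of `S.gv y`. -/
theorem Gv_eq (hS : S.Good) {y : Fin N → E} (hy : y ∈ S.Wc) {l : Fin nG} (h : S.Gv l y ≠ 0) :
    ∃ c : E, c ≠ 0 ∧ S.Gv l y = c • S.gv y := by
  obtain ⟨c, hc⟩ := hS.gv_G l y hy
  refine ⟨c, ?_, hc⟩
  intro h0
  apply h
  rw [hc, h0, zero_smul]

theorem gv_smul (hS : S.Good) {y : Fin N → E} (hy : y ∈ S.Wc) {t : E} (ht : t ≠ 0) :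
    ∃ c : E, c ≠ 0 ∧ S.gv (t • y) = c • S.gv y := by
  obtain ⟨l, hl⟩ := hS.G_ne _ (hS.W_smul y hy t ht)
  obtain ⟨a, ha, hae⟩ := Gv_eq hS (hS.W_smul y hy t ht) hl
  have hl' : S.Gv l y ≠ 0 := by
    intro h0
    apply hl
    rw [Gv_smul hS, h0, smul_zero]
  obtain ⟨b, hb, hbe⟩ := Gv_eq hS hy hl'
  refine ⟨a⁻¹ * (t ^ S.e * b), ?_, ?_⟩
  · exact mul_ne_zero (inv_ne_zero ha) (mul_ne_zero (pow_ne_zero _ ht) hb)
  · rw [Gv_smul hS, hbe, smul_smul] at hae
    rw [← smul_smul, hae, smul_smul, inv_mul_cancel₀ ha, one_smul]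

/-- The value of a nonvanishing tuple `P k` is a multiple of `S.fv z y`. -/
theorem Pv_eq (hS : S.Good) {y : Fin N → E} (hy : y ∈ S.Wc) {z : Fin M → E} (hz : z ∈ S.fib y)
    (hz0 : z ≠ 0) {k : Fin nP} (h : S.Pv k z y ≠ 0) :
    ∃ c : E, c ≠ 0 ∧ S.Pv k z y = c • S.fv z y := by
  obtain ⟨c, hc⟩ := hS.fv_P k y hy z hz hz0
  refine ⟨c, ?_, hc⟩
  intro h0
  apply h
  rw [hc, h0, zero_smul]

end

variable {E : Type*} [Field E] [CharZero E] {M N s nP nG : ℕ} {S : Sys E M N s nP nG}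

theorem rat_eval {σ : Type*} {K : IntermediateField ℚ E} {F : MvPolynomial σ E}
    (hF : ∀ d, F.coeff d ∈ K) {x : σ → E} (hx : ∀ i, x i ∈ K) : eval x F ∈ K := by
  rw [eval_eq]
  exact sum_mem fun d _ => mul_mem (hF d) (prod_mem fun i _ => pow_mem (hx i) _)

theorem rat_gv (hS : S.Good) {K : IntermediateField ℚ E} (hK : S.OverK K) {y : Fin N → E}
    (hy : y ∈ S.Wc) (hyK : ∀ i, y i ∈ K) (n : ℕ) :
    ∃ t : E, t ≠ 0 ∧ ∀ i, t * S.gv^[n] y i ∈ K := by
  induction n with
  | zero => exact ⟨1, one_ne_zero, fun i => by rw [one_mul]; exact hyK i⟩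
  | succ n ih =>
    obtain ⟨t, ht, htK⟩ := ih
    have hy' := gv_iter_mem hS hy n
    have hx := hS.W_smul _ hy' t ht
    obtain ⟨l, hl⟩ := hS.G_ne _ hx
    obtain ⟨c, hc, hce⟩ := Gv_eq hS hx hl
    obtain ⟨c', hc', hce'⟩ := gv_smul hS hy' ht
    refine ⟨c * c', mul_ne_zero hc hc', ?_⟩
    intro i
    rw [Function.iterate_succ_apply']
    have h1 : S.Gv l (t • S.gv^[n] y) i = c * c' * S.gv (S.gv^[n] y) i := by
      rw [hce, hce', smul_smul]
      rfl
    rw [← h1]
    exact rat_eval (hK.G l i) htK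

theorem rat_zo (hS : S.Good) {K : IntermediateField ℚ E} (hK : S.OverK K) {y : Fin N → E}
    (hy : y ∈ S.Wc) (hyK : ∀ i, y i ∈ K) {z : Fin M → E} (hz : z ∈ S.fib y) (hz0 : z ≠ 0)
    (hzK : ∀ i, z i ∈ K) (n : ℕ) : ∃ t : E, t ≠ 0 ∧ ∀ i, t * S.zo z y n i ∈ K := by
  induction n with
  | zero => exact ⟨1, one_ne_zero, fun i => by rw [one_mul]; exact hzK i⟩
  | succ n ih =>
    obtain ⟨r, hr, hrK⟩ := ih
    obtain ⟨t, ht, htK⟩ := rat_gv hS hK hy hyK n
    have hy' := gv_iter_mem hS hy n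
    obtain ⟨hz', hz0'⟩ := zo_mem_ne hS hy hz hz0 n
    obtain ⟨k, hk⟩ := hS.P_ne _ hy'
    obtain ⟨c, hc, hce⟩ := Pv_eq hS hy' hz' hz0' (hk _ hz' hz0')
    refine ⟨r ^ S.q * t ^ S.m * c,
      mul_ne_zero (mul_ne_zero (pow_ne_zero _ hr) (pow_ne_zero _ ht)) hc, ?_⟩
    intro i
    rw [zo_succ]
    have h1 : S.Pv k (r • S.zo z y n) (t • S.gv^[n] y) i =
        r ^ S.q * t ^ S.m * c * S.fv (S.zo z y n) (S.gv^[n] y) i := by
      rw [Pv_smul hS, hce, smul_smul]
      rfl
    rw [← h1]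
    apply rat_eval (hK.P k i)
    rintro (j | j)
    · exact hrK j
    · exact htK j

theorem rat_coord {K : IntermediateField ℚ E} {R : ℕ} {w : Fin R → Fin M → E}
    (hw : LinearIndependent E w) (hwK : ∀ i j, w i j ∈ K) {a : Fin R → E} {c : E}
    (h : ∀ l, c * comb w a l ∈ K) (i : Fin R) : c * a i ∈ K := by
  let wK : Fin R → Fin M → K := fun i j => ⟨w i j, hwK i j⟩
  have hinj : LinearMap.ker (Fintype.linearCombination K wK) = ⊥ := by
    rw [LinearMap.ker_eq_bot']
    intro x hx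
    have h1 : ∑ i, (x i : E) • w i = 0 := by
      funext l
      have h2 := congrFun hx l
      rw [Fintype.linearCombination_apply, Finset.sum_apply] at h2
      have h3 := congrArg (fun z : K => (z : E)) h2
      simp only [Pi.smul_apply, smul_eq_mul, Pi.zero_apply] at h3
      rw [Finset.sum_apply]
      simp only [Pi.smul_apply, smul_eq_mul, Pi.zero_apply]
      rw [IntermediateField.coe_sum, IntermediateField.coe_zero] at h3
      exact h3
    have h2 := Fintype.linearIndependent_iff.1 hw _ h1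
    funext i
    exact Subtype.ext (h2 i)
  obtain ⟨g, hg⟩ := LinearMap.exists_leftInverse_of_injective _ hinj
  have hgw : ∀ i, g (wK i) = Pi.single i 1 := by
    intro i
    have h1 := LinearMap.congr_fun hg (Pi.single i 1)
    rw [LinearMap.comp_apply, LinearMap.id_apply, Fintype.linearCombination_apply_single,
      one_smul] at h1
    exact h1
  have hA : ∀ i j, ∑ l, (g (Pi.single l 1) i : E) * w j l = if i = j then 1 else 0 := by
    intro i j
    have h1 := LinearMap.pi_apply_eq_sum_univ g (wK j)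
    rw [hgw j] at h1
    have h2 := congrArg (fun z : K => (z : E)) (congrFun h1 i)
    simp only [Finset.sum_apply, Pi.smul_apply, smul_eq_mul] at h2
    rw [IntermediateField.coe_sum] at h2
    rw [Pi.single_apply] at h2
    have h3 : (((if i = j then 1 else 0 : K)) : E) = if i = j then 1 else 0 := by
      split_ifs <;> simp
    rw [h3] at h2
    rw [h2]
    refine Finset.sum_congr rfl fun l _ => ?_
    rw [mul_comm, IntermediateField.coe_mul]
    have e : (fun j => if l = j then (1 : K) else 0) = Pi.single l 1 := by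
      funext j
      rw [Pi.single_apply]
      by_cases hlj : l = j
      · rw [if_pos hlj, if_pos hlj.symm]
      · rw [if_neg hlj, if_neg (Ne.symm hlj)]
    rw [e]
  have hfin : c * a i = ∑ l, (g (Pi.single l 1) i : E) * (c * comb w a l) := by
    unfold comb
    have h1 : ∀ l, (g (Pi.single l 1) i : E) * (c * ∑ j, a j * w j l) =
        ∑ j, c * a j * ((g (Pi.single l 1) i : E) * w j l) := by
      intro l
      rw [Finset.mul_sum, Finset.mul_sum]
      refine Finset.sum_congr rfl fun j _ => ?_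
      ring
    rw [Finset.sum_congr rfl fun l _ => h1 l, Finset.sum_comm]
    have h2 : ∀ j, ∑ l, c * a j * ((g (Pi.single l 1) i : E) * w j l) =
        c * a j * (if i = j then 1 else 0) := by
      intro j
      rw [← Finset.mul_sum, hA]
    rw [Finset.sum_congr rfl fun j _ => h2 j]
    simp
  rw [hfin]
  exact sum_mem fun l _ => mul_mem (SetLike.coe_mem _) (h l)

end Pool.Agent.PBL.O
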