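import Pool.Agent.PBL.O.Defs

/-!
# PBK SUB: the forms `P k` on a fibre, in coordinates

`subP S k y w i` is the form `u ↦ S.P k i (∑ u_j w_j, y)` of degree `S.q`.

Proofs. `eval_subP`: `eval` of `aeval` is `eval` at the values (`eval₂` lemmas: write both sides as
`MvPolynomial.aeval`/`eval₂Hom` and use `MvPolynomial.induction_on` or `comp_aeval`); the values of the
substituted polynomials at `u` are `∑ j, u j * w j l = comb w u l` and `y l`.
`subP_hom`: a monomial of the bihomogeneous `S.P k i` (exponent `d` with `∑_l d (inl l) = S.q`; this is the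
first component of the condition `IsBihom`) becomes `coefficient * ∏ (linear form) ^ d (inl l) *
∏ constants`, homogeneous of degree `∑_l d (inl l) = S.q` (`IsHomogeneous.prod`, `.pow`, `.sum`).
`coeff_subP_mem`: the coefficients of `subP` are in `K`, because the set of the polynomials with
coefficients in `K` is a subring (`(MvPolynomial.map (algebraMap K E)).range`, or: lift everything to `K`
and use `map_aeval`).
`exists_cols`: `S.fib y` is spanned by the columns and has dimension `S.R`; a spanning family contains a
basis (`exists_linearIndependent`), reindex it by `Fin S.R`.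
`Pv_smul_left`: `Pv_smul` of `Defs.lean` with `t = 1`. `col_mem`: evaluation of a polynomial with
coefficients in `K` at a point with coordinates in `K` (`eval_eq`, `IntermediateField.sum_mem` etc).
-/

set_option autoImplicit false

open MvPolynomial

namespace Pool.Agent.PBL.O

section

variable {E : Type*} [Field E] {M N s nP nG : ℕ}

/-- The form `u ↦ S.P k i (∑ u_j w_j, y)`. -/
noncomputable def subP (S : Sys E M N s nP nG) (k : Fin nP) (y : Fin N → E)
    (w : Fin S.R → Fin M → E) (i : Fin M) : MvPolynomial (Fin S.R) E :=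
  aeval (Sum.elim (fun l => ∑ j, C (w j l) * X j) (fun l => C (y l))) (S.P k i)

variable {S : Sys E M N s nP nG}

theorem eval_subP (k : Fin nP) (y : Fin N → E) (w : Fin S.R → Fin M → E) (i : Fin M)
    (u : Fin S.R → E) : eval u (subP S k y w i) = S.Pv k (comb w u) y i := by
  have h : (eval u).comp (aeval (Sum.elim (fun l => ∑ j, C (w j l) * X j) (fun l => C (y l))) :
      MvPolynomial (Fin M ⊕ Fin N) E →ₐ[E] MvPolynomial (Fin S.R) E).toRingHom =
      eval (pt (comb w u) y) := by
    apply MvPolynomial.ringHom_ext
    · intro r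
      simp
    · rintro (l | l)
      · simp only [RingHom.coe_comp, Function.comp_apply, AlgHom.toRingHom_eq_coe, RingHom.coe_coe,
          aeval_X, Sum.elim_inl, eval_X, pt, comb, map_sum, map_mul, eval_C]
        exact Finset.sum_congr rfl fun j _ => mul_comm _ _
      · simp only [RingHom.coe_comp, Function.comp_apply, AlgHom.toRingHom_eq_coe, RingHom.coe_coe,
          aeval_X, Sum.elim_inr, eval_X, pt, eval_C]
  exact congrArg (fun f : MvPolynomial (Fin M ⊕ Fin N) E →+* E => f (S.P k i)) h

private theorem subP_eq (k : Fin nP) (y : Fin N → E) (w : Fin S.R → Fin M → E) (i : Fin M) :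
    subP S k y w i = ∑ d ∈ (S.P k i).support, C (coeff d (S.P k i)) *
      ∏ x ∈ d.support, (Sum.elim (fun l => ∑ j, C (w j l) * X j) (fun l => C (y l)) x :
        MvPolynomial (Fin S.R) E) ^ d x := by
  unfold subP
  conv_lhs => rw [(S.P k i).as_sum, map_sum]
  refine Finset.sum_congr rfl fun d _ => ?_
  rw [aeval_monomial, algebraMap_eq]
  rfl

theorem subP_hom (hS : S.Good) (k : Fin nP) (y : Fin N → E) (w : Fin S.R → Fin M → E)
    (i : Fin M) : (subP S k y w i).IsHomogeneous S.q := by
  rw [subP_eq]
  refine IsHomogeneous.sum _ _ _ fun d hd => ?_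
  have h0 := hS.P_bihom k i (mem_support_iff.1 hd)
  rw [Finsupp.weight_apply, Finsupp.sum] at h0
  have h1 := IsHomogeneous.prod d.support (fun x =>
    (Sum.elim (fun l => ∑ j, C (w j l) * X j) (fun l => C (y l)) x :
        MvPolynomial (Fin S.R) E) ^ d x) (fun x => (d x • bw (Fin M) (Fin N) x).1) (by
    rintro (l | l) _
    · have h2 : (∑ j, C (w j l) * X j : MvPolynomial (Fin S.R) E).IsHomogeneous 1 :=
        IsHomogeneous.sum _ _ _ fun j _ => by
          have := (isHomogeneous_C (Fin S.R) (w j l)).mul (isHomogeneous_X E j)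
          rwa [zero_add] at this
      have h3 := h2.pow (d (Sum.inl l))
      simpa [bw] using h3
    · have h3 := (isHomogeneous_C (Fin S.R) (y l)).pow (d (Sum.inr l))
      simpa [bw] using h3)
  have h2 := (isHomogeneous_C (Fin S.R) (coeff d (S.P k i))).mul h1
  rw [← Prod.fst_sum, h0, zero_add] at h2
  exact h2

private theorem sub_bas {E V : Type*} [Field E] [AddCommGroup V] [Module E V]
    [FiniteDimensional E V] {s R : ℕ} (v : Fin s → V)
    (h : Module.finrank E (Submodule.span E (Set.range v)) = R) :
    ∃ j : Fin R → Fin s, LinearIndependent E (fun a => v (j a)) ∧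
      Submodule.span E (Set.range fun a => v (j a)) = Submodule.span E (Set.range v) := by
  classical
  obtain ⟨b, hb1, hb2, hb3⟩ := exists_linearIndependent E (Set.range v)
  have hfin : b.Finite := (Set.finite_range v).subset hb1
  have := hfin.fintype
  have hcard : Fintype.card b = R := by
    rw [← h, ← hb2, finrank_span_set_eq_card hb3, Set.toFinset_card]
  obtain ⟨e⟩ : Nonempty (Fin R ≃ b) := ⟨(Fintype.equivFinOfCardEq hcard).symm⟩
  choose j hj using fun a : Fin R => hb1 (e a).2
  refine ⟨j, ?_, ?_⟩
  · have h1 : (fun a => v (j a)) = (fun x : b => (x : V)) ∘ e := funext hj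
    rw [h1]
    exact hb3.comp e e.injective
  · have h1 : (fun a => v (j a)) = (fun x : b => (x : V)) ∘ e := funext hj
    rw [h1, Set.range_comp, e.range_eq_univ, Set.image_univ, Subtype.range_coe, hb2]

/-- Some columns are a basis of the fibre. -/
theorem exists_cols (hS : S.Good) {y : Fin N → E} (hy : y ∈ S.Wc) :
    ∃ J : Fin S.R → Fin s, S.IsBas y (fun i => S.col y (J i)) := by
  obtain ⟨J, hJ1, hJ2⟩ := sub_bas (S.col y) (hS.rank y hy)
  exact ⟨J, hJ1, hJ2⟩

/-- The vectors `z` of the fibre with `S.Pv k z y = 0`: homogeneity in `z` only. -/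
theorem Pv_smul_left (hS : S.Good) (t : E) (z : Fin M → E) (y : Fin N → E) (k : Fin nP) :
    S.Pv k (t • z) y = t ^ S.q • S.Pv k z y := by
  have h := Pv_smul hS t 1 z y k
  rw [one_smul, one_pow, mul_one] at h
  exact h

end

section

variable {E : Type*} [Field E] [CharZero E] {M N s nP nG : ℕ} {S : Sys E M N s nP nG}

/-- The polynomials with coefficients in `K`. -/
private def subRg (K : IntermediateField ℚ E) (σ : Type*) : Subring (MvPolynomial σ E) where
  carrier := {P | ∀ d, coeff d P ∈ K}
  mul_mem' := by
    classical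
    intro P Q hP hQ d
    rw [coeff_mul]
    exact sum_mem fun x _ => mul_mem (hP _) (hQ _)
  one_mem' := by
    classical
    intro d
    rw [coeff_one]
    split_ifs
    · exact one_mem K
    · exact zero_mem K
  add_mem' := by
    intro P Q hP hQ d
    rw [coeff_add]
    exact add_mem (hP d) (hQ d)
  zero_mem' := by
    intro d
    rw [coeff_zero]
    exact zero_mem K
  neg_mem' := by
    intro P hP d
    rw [coeff_neg]
    exact neg_mem (hP d)

private theorem subRg_C {K : IntermediateField ℚ E} {σ : Type*} {c : E} (hc : c ∈ K) :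
    (C c : MvPolynomial σ E) ∈ subRg K σ := by
  classical
  intro d
  rw [coeff_C]
  split_ifs
  · exact hc
  · exact zero_mem K

private theorem subRg_X {K : IntermediateField ℚ E} {σ : Type*} (x : σ) :
    (X x : MvPolynomial σ E) ∈ subRg K σ := by
  classical
  intro d
  rw [coeff_X]
  split_ifs
  · exact one_mem K
  · exact zero_mem K

theorem coeff_subP_mem {K : IntermediateField ℚ E} (hK : S.OverK K) (k : Fin nP)
    {y : Fin N → E} (hy : ∀ i, y i ∈ K) {w : Fin S.R → Fin M → E} (hw : ∀ i j, w i j ∈ K)
    (i : Fin M) (d : Fin S.R →₀ ℕ) : (subP S k y w i).coeff d ∈ K := by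
  have h : subP S k y w i ∈ subRg K (Fin S.R) := by
    rw [subP_eq]
    refine sum_mem fun d _ => mul_mem (subRg_C (hK.P k i d)) (prod_mem fun x _ => pow_mem ?_ _)
    rcases x with l | l
    · exact sum_mem fun j _ => mul_mem (subRg_C (hw j l)) (subRg_X j)
    · exact subRg_C (hy l)
  exact h d

theorem col_mem {K : IntermediateField ℚ E} (hK : S.OverK K) {y : Fin N → E}
    (hy : ∀ i, y i ∈ K) (j : Fin s) (i : Fin M) : S.col y j i ∈ K := by
  unfold Sys.col
  rw [eval_eq]
  exact sum_mem fun d _ => mul_mem (hK.B j i d) (prod_mem fun l _ => pow_mem (hy l) _)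

end

end Pool.Agent.PBL.O
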